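import Pool.Agent.K1H53.EX.NuOf

/-! # The final computation, part 1: the influence of an emission -/

set_option autoImplicit false

open MeasureTheory Filter Topology
open scoped ENNReal

namespace Pool.Agent.K1H53.EX

theorem cint {X : Type*} [TopologicalSpace X] [CompactSpace X] [MeasurableSpace X]
    [OpensMeasurableSpace X] [SecondCountableTopologyEither X ℝ]
    (ν : Measure X) [IsFiniteMeasure ν] {f : X → ℝ} (hf : Continuous f) : Integrable f ν := by
  have h := (BoundedContinuousFunction.mkOfCompact (⟨f, hf⟩ : C(X, ℝ))).integrable (μ := ν)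
  exact h

theorem cnt_apply (A : ℕ) (η : Cfg) :
    cnt A η = ∑ x ∈ Finset.Icc (-(A : ℤ)) A, e1 x η := rfl

theorem cnt_nonneg (A : ℕ) (η : Cfg) : 0 ≤ cnt A η := by
  rw [cnt_apply]
  refine Finset.sum_nonneg fun x _ => ?_
  show 0 ≤ if η x = true then (1:ℝ) else 0
  split_ifs <;> norm_num

theorem cnt_le (A : ℕ) (η : Cfg) : cnt A η ≤ 2 * A + 1 := by
  rw [cnt_apply]
  calc ∑ x ∈ Finset.Icc (-(A : ℤ)) A, e1 x η ≤ ∑ x ∈ Finset.Icc (-(A : ℤ)) A, (1:ℝ) := by
        refine Finset.sum_le_sum fun x _ => ?_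
        show (if η x = true then (1:ℝ) else 0) ≤ 1
        split_ifs <;> norm_num
    _ = 2 * A + 1 := by
        simp only [Finset.sum_const, Int.card_Icc, nsmul_eq_mul, mul_one]
        have : ((A:ℤ) + 1 - -(A:ℤ)).toNat = 2 * A + 1 := by omega
        rw [this]; push_cast; ring

theorem cnt_diff (A : ℕ) (η : Cfg) (x : ℤ) (hx : η x = true) :
    cnt A η - cnt A (Function.update η x false) = if x ∈ Finset.Icc (-(A : ℤ)) A then 1 else 0 := by
  rw [cnt_apply, cnt_apply, ← Finset.sum_sub_distrib]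
  have h : ∀ y ∈ Finset.Icc (-(A : ℤ)) A, e1 y η - e1 y (Function.update η x false) =
      if y = x then 1 else 0 := by
    intro y _
    show (if η y = true then (1:ℝ) else 0) -
      (if Function.update η x false y = true then (1:ℝ) else 0) = _
    by_cases h : y = x
    · subst h; simp [hx]
    · simp [h]
  rw [Finset.sum_congr rfl h, Finset.sum_ite_eq']

/-- sum of the densities over the window -/
theorem int_cnt (μ : Measure Cfg) [IsProbabilityMeasure μ] (A : ℕ) :
    ∫ η, cnt A η ∂μ = ∑ x ∈ Finset.Icc (-(A : ℤ)) A, μ.real {η | η x = true} := by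
  simp only [cnt_apply]
  rw [integral_finset_sum _ fun x _ => cint μ (e1 x).continuous]
  exact Finset.sum_congr rfl fun x _ => int_e1 μ x

theorem tele (ρ : ℤ → ℝ) (A : ℕ) :
    ∑ x ∈ Finset.Icc (-(A : ℤ)) A, (ρ x - ρ (x - 1)) = ρ A - ρ (-(A:ℤ) - 1) := by
  induction A with
  | zero => simp
  | succ k ih =>
    have hI : Finset.Icc (-((k + 1 : ℕ):ℤ)) ((k + 1 : ℕ):ℤ) =
        insert (-((k + 1 : ℕ):ℤ)) (insert ((k + 1 : ℕ):ℤ) (Finset.Icc (-(k:ℤ)) k)) := by
      ext x
      simp only [Finset.mem_Icc, Finset.mem_insert]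
      push_cast
      omega
    rw [hI, Finset.sum_insert, Finset.sum_insert, ih]
    · push_cast
      have e1 : (k:ℤ) + 1 - 1 = k := by ring
      have e2 : -((k:ℤ) + 1) = -(k:ℤ) - 1 := by ring
      rw [e1, e2]
      ring
    · simp only [Finset.mem_Icc]; push_cast; omega
    · simp only [Finset.mem_insert, Finset.mem_Icc]; push_cast; omega

/-- the action of the exclusion rule when it acts -/
theorem T_act (u v : ℤ) (η : Cfg) (huv : u ≠ v) (hu : η u = true) (hv : η v = false) :
    T a1 u v η = Function.update (Function.update η u false) v true := by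
  unfold T
  rw [if_neg huv]
  simp [a1, hu, hv]

theorem T_idle (u v : ℤ) (η : Cfg) (h : ¬ (η u = true ∧ η v = false)) : T a1 u v η = η := by
  unfold T
  split_ifs with huv
  · rfl
  · have : a1 (η u, η v) = (η u, η v) := by
      unfold a1
      cases hu : η u <;> cases hv : η v <;> simp_all
    rw [this]
    simp

/-- **Emission lemma.** -/
theorem emission {p : ℤ → ℝ} {P : ℝ → C(Cfg, ℝ) →L[ℝ] C(Cfg, ℝ)} (hp : ∀ m, 0 ≤ p m)
    (hs : Summable p) (hs1 : Summable (fun m : ℤ => |(m : ℝ)| * p m)) (hP : IsSG a1 p P)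
    (hSPD : S_SPD) {μ : Measure Cfg} [IsProbabilityMeasure μ] (hInv : Inv P μ)
    (hInv' : Inv P (μ.map sh)) {ν : Measure Cfg2} [IsProbabilityMeasure ν]
    (hν1 : ν.map π1 = μ) (hν2 : ν.map π2 = μ.map sh)
    (hν3 : ∀ᵐ ω ∂ν, ∃ x : ℤ, (π1 ω) x = true ∧ π2 ω = Function.update (π1 ω) x false)
    (A : ℕ) (hA1 : ∀ x : ℤ, x ≤ -(A:ℤ) → μ.real {η | η x = true} ≤ 1 / 32)
    (hA2 : ∀ x : ℤ, (A:ℤ) ≤ x → 1 - 1 / 32 ≤ μ.real {η | η x = true})
    (t : ℝ) (ht : 0 ≤ t) (z y : ℤ) (hz : (A:ℤ) + 1 ≤ z) (hy : y < -(A:ℤ))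
    (hyt : 2 * (∑' m : ℤ, |(m : ℝ)| * p m) * t / (-(y : ℝ) - A) ≤ 1 / 4) :
    1 / 4 - 4 * (2 * A + 1) * ∑ w ∈ Finset.Icc (-(A : ℤ)) A,
        ∫ η, (P t (cnt A) (T a1 z w η) - P t (cnt A) η) ^ 2 ∂(μ.map sh) ≤
      ∫ η, (P t (cnt A) (T a1 z y η) - P t (cnt A) η) ^ 2 ∂μ := by
  set g : C(Cfg, ℝ) := P t (cnt A) with hg
  have hspd := hSPD p P hp hs hs1 hP A t ht
  have : IsProbabilityMeasure (μ.map sh) :=
    Measure.isProbabilityMeasure_map sh.continuous.measurable.aemeasurable
  have push1 : ∀ f : Cfg → ℝ, Continuous f → ∫ η, f η ∂μ = ∫ ω, f (π1 ω) ∂ν := by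
    intro f hf
    rw [← hν1, integral_map π1.continuous.measurable.aemeasurable
      hf.measurable.aestronglyMeasurable]
  have push2 : ∀ f : Cfg → ℝ, Continuous f → ∫ η, f η ∂(μ.map sh) = ∫ ω, f (π2 ω) ∂ν := by
    intro f hf
    rw [← hν2, integral_map π2.continuous.measurable.aemeasurable
      hf.measurable.aestronglyMeasurable]
  have dens2 : ∀ x : ℤ, (μ.map sh).real {η | η x = true} = μ.real {η | η (x - 1) = true} := by
    intro x
    rw [Measure.real, Measure.real, Measure.map_apply sh.continuous.measurable (meas1 x true)]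
    rfl
  have cT : ∀ u v : ℤ, Continuous fun ω : Cfg2 => g (T a1 u v (π2 ω)) := fun u v =>
    g.continuous.comp ((continuous_T a1 u v).comp π2.continuous)
  have cT1 : ∀ u v : ℤ, Continuous fun ω : Cfg2 => g (T a1 u v (π1 ω)) := fun u v =>
    g.continuous.comp ((continuous_T a1 u v).comp π1.continuous)
  have c1 : Continuous fun ω : Cfg2 => g (π1 ω) := g.continuous.comp π1.continuous
  have c2 : Continuous fun ω : Cfg2 => g (π2 ω) := g.continuous.comp π2.continuous
  have c3 : Continuous fun ω : Cfg2 => cnt A (π1 ω) := (cnt A).continuous.comp π1.continuous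
  have c4 : Continuous fun ω : Cfg2 => cnt A (π2 ω) := (cnt A).continuous.comp π2.continuous
  have c5 : Continuous fun ω : Cfg2 => e1 z (π2 ω) := (e1 z).continuous.comp π2.continuous
  have c6 : Continuous fun ω : Cfg2 => e1 y (π1 ω) := (e1 y).continuous.comp π1.continuous
  have I1 : Integrable (fun ω => g (π1 ω)) ν := cint ν c1
  have I2 : Integrable (fun ω => g (π2 ω)) ν := cint ν c2
  have I3 : Integrable (fun ω => cnt A (π1 ω)) ν := cint ν c3
  have I4 : Integrable (fun ω => cnt A (π2 ω)) ν := cint ν c4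
  have I5 : Integrable (fun ω => e1 z (π2 ω)) ν := cint ν c5
  have I6 : Integrable (fun ω => e1 y (π1 ω)) ν := cint ν c6
  -- the two basic integrals
  have i1 : (15:ℝ) / 16 ≤ ∫ ω, (cnt A (π1 ω) - cnt A (π2 ω)) ∂ν := by
    rw [integral_sub I3 I4, ← push1 _ (cnt A).continuous,
      ← push2 _ (cnt A).continuous, int_cnt, int_cnt, ← Finset.sum_sub_distrib]
    simp only [dens2]
    rw [tele (fun x => μ.real {η | η x = true}) A]
    have h1 := hA2 A le_rfl
    have h2 := hA1 (-(A:ℤ) - 1) (by omega)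
    linarith
  have i2 : ∫ ω, (g (π1 ω) - g (π2 ω)) ∂ν = ∫ ω, (cnt A (π1 ω) - cnt A (π2 ω)) ∂ν := by
    rw [integral_sub I1 I2, ← push1 _ g.continuous,
      ← push2 _ g.continuous, hInv t ht, hInv' t ht, integral_sub I3 I4,
      ← push1 _ (cnt A).continuous, ← push2 _ (cnt A).continuous]
  have i3 : ∫ ω, (1 - e1 z (π2 ω)) ∂ν ≤ 1 / 32 := by
    rw [integral_sub (integrable_const _) I5, ← push2 _ (e1 z).continuous, int_e1, dens2]
    have h1 := hA2 (z - 1) (by omega)
    simp only [integral_const, probReal_univ, smul_eq_mul, mul_one]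
    linarith
  have i4 : ∫ ω, e1 y (π1 ω) ∂ν ≤ 1 / 32 := by
    rw [← push1 _ (e1 y).continuous, int_e1]
    exact hA1 y hy.le
  -- the pointwise inequality
  set W := Finset.Icc (-(A : ℤ)) A with hW
  have key : ∀ᵐ ω ∂ν, (g (π1 ω) - g (π2 ω)) - (1 - (cnt A (π1 ω) - cnt A (π2 ω))) -
      (1 - e1 z (π2 ω)) - e1 y (π1 ω) - (∑ w ∈ W, |g (T a1 z w (π2 ω)) - g (π2 ω)|) - 1 / 4 ≤
      g (π1 ω) - g (T a1 z y (π1 ω)) := by
    filter_upwards [hν3] with ω hω
    obtain ⟨x, hx, hx2⟩ := hω
    have hb := hspd (π1 ω) x hx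
    rw [← hx2] at hb
    have hc := cnt_diff A (π1 ω) x hx
    rw [← hx2] at hc
    have hsum : 0 ≤ ∑ w ∈ W, |g (T a1 z w (π2 ω)) - g (π2 ω)| :=
      Finset.sum_nonneg fun w _ => abs_nonneg _
    have he1 : 0 ≤ e1 y (π1 ω) ∧ e1 y (π1 ω) ≤ 1 := by
      show 0 ≤ (if π1 ω y = true then (1:ℝ) else 0) ∧ (if π1 ω y = true then (1:ℝ) else 0) ≤ 1
      split_ifs <;> norm_num
    have he2 : 0 ≤ e1 z (π2 ω) ∧ e1 z (π2 ω) ≤ 1 := by
      show 0 ≤ (if π2 ω z = true then (1:ℝ) else 0) ∧ (if π2 ω z = true then (1:ℝ) else 0) ≤ 1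
      split_ifs <;> norm_num
    have hzy : z ≠ y := by omega
    -- the right side is at least -1/4, and more precise when the rule acts
    have hact : π1 ω z = true → π1 ω y = false →
        g (π1 ω) - g (Function.update (π1 ω) z false) - 1 / 4 ≤
          g (π1 ω) - g (T a1 z y (π1 ω)) := by
      intro h1 h2
      rw [T_act z y (π1 ω) hzy h1 h2]
      have h3 := (hspd (Function.update (Function.update (π1 ω) z false) y true) y
        (by simp)).2.2 hy
      have h4 : Function.update (Function.update (Function.update (π1 ω) z false) y true) y false =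
          Function.update (π1 ω) z false := by
        rw [Function.update_idem]
        have : Function.update (π1 ω) z false y = false := by
          rw [Function.update_of_ne hzy.symm]; exact h2
        nth_rewrite 2 [← this]
        exact Function.update_eq_self _ _
      rw [h4] at h3
      have h5 := h3.trans hyt
      linarith
    have hge : -(1 / 4 : ℝ) ≤ g (π1 ω) - g (T a1 z y (π1 ω)) := by
      by_cases h : π1 ω z = true ∧ π1 ω y = false
      · have h1 := hact h.1 h.2
        have h2 := (hspd (π1 ω) z h.1).1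
        linarith
      · rw [T_idle z y _ h]; norm_num
    by_cases hxW : x ∈ W
    · rw [if_pos hxW] at hc
      by_cases hz2 : π2 ω z = true
      · by_cases hy1 : π1 ω y = true
        · have : e1 y (π1 ω) = 1 := by
            show (if π1 ω y = true then (1:ℝ) else 0) = 1
            rw [if_pos hy1]
          rw [this, hc]
          linarith [hb.2.1]
        · have hy1' : π1 ω y = false := by simpa using hy1
          have hzx : z ≠ x := by
            rintro rfl
            rw [hx2, Function.update_self] at hz2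
            exact Bool.noConfusion hz2
          have hz1 : π1 ω z = true := by
            rw [hx2, Function.update_of_ne hzx] at hz2
            exact hz2
          have h1 := hact hz1 hy1'
          have h2 : Function.update (π1 ω) z false = T a1 z x (π2 ω) := by
            rw [T_act z x (π2 ω) hzx hz2 (by rw [hx2, Function.update_self]), hx2,
              Function.update_comm hzx.symm, Function.update_idem]
            have h6 : Function.update (π1 ω) z false x = true := by
              rw [Function.update_of_ne hzx.symm]; exact hx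
            exact (Function.update_eq_self_iff.2 h6.symm).symm
          have h3 : |g (T a1 z x (π2 ω)) - g (π2 ω)| ≤
              ∑ w ∈ W, |g (T a1 z w (π2 ω)) - g (π2 ω)| :=
            Finset.single_le_sum (f := fun w => |g (T a1 z w (π2 ω)) - g (π2 ω)|)
              (fun w _ => abs_nonneg _) hxW
          rw [h2] at h1
          have h4 := le_abs_self (g (T a1 z x (π2 ω)) - g (π2 ω))
          rw [hc]
          linarith [he1.1, he2.2]
      · have : e1 z (π2 ω) = 0 := by
          show (if π2 ω z = true then (1:ℝ) else 0) = 0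
          rw [if_neg hz2]
        rw [this, hc]
        linarith [hb.2.1, he1.1]
    · rw [if_neg hxW] at hc
      rw [hc]
      linarith [hb.2.1, he1.1, he2.2]
  -- squares
  have hw : (0:ℝ) < 2 * A + 1 := by positivity
  have key2 : ∀ᵐ ω ∂ν, (g (π1 ω) - g (π2 ω)) - (1 - (cnt A (π1 ω) - cnt A (π2 ω))) -
      (1 - e1 z (π2 ω)) - e1 y (π1 ω) - (∑ w ∈ W, (1 / (16 * (2 * (A:ℝ) + 1)) +
        4 * (2 * A + 1) * (g (T a1 z w (π2 ω)) - g (π2 ω)) ^ 2)) - 1 / 4 - 1 / 4 ≤
      (g (T a1 z y (π1 ω)) - g (π1 ω)) ^ 2 := by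
    filter_upwards [key] with ω hω
    have h1 : ∑ w ∈ W, |g (T a1 z w (π2 ω)) - g (π2 ω)| ≤ ∑ w ∈ W, (1 / (16 * (2 * (A:ℝ) + 1)) +
        4 * (2 * A + 1) * (g (T a1 z w (π2 ω)) - g (π2 ω)) ^ 2) := by
      refine Finset.sum_le_sum fun w _ => ?_
      set d := g (T a1 z w (π2 ω)) - g (π2 ω)
      have h2 : 0 ≤ (8 * (2 * (A:ℝ) + 1) * |d| - 1) ^ 2 / (16 * (2 * (A:ℝ) + 1)) := by positivity
      have h3 : (8 * (2 * (A:ℝ) + 1) * |d| - 1) ^ 2 / (16 * (2 * (A:ℝ) + 1)) =
          1 / (16 * (2 * (A:ℝ) + 1)) + 4 * (2 * A + 1) * |d| ^ 2 - |d| := by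
        field_simp
        ring
      rw [sq_abs] at h3
      linarith
    have h4 : (g (T a1 z y (π1 ω)) - g (π1 ω)) ^ 2 ≥ (g (π1 ω) - g (T a1 z y (π1 ω))) - 1 / 4 := by
      nlinarith [sq_nonneg (g (π1 ω) - g (T a1 z y (π1 ω)) - 1 / 2)]
    linarith
  have q1 : Continuous fun ω : Cfg2 => (g (π1 ω) - g (π2 ω)) := c1.sub c2
  have q2 : Continuous fun ω : Cfg2 => (1 - (cnt A (π1 ω) - cnt A (π2 ω))) :=
    continuous_const.sub (c3.sub c4)
  have q3 : Continuous fun ω : Cfg2 => (1 - e1 z (π2 ω)) := continuous_const.sub c5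
  have q4 : ∀ w : ℤ, Continuous fun ω : Cfg2 => (1 / (16 * (2 * (A:ℝ) + 1)) +
        4 * (2 * A + 1) * (g (T a1 z w (π2 ω)) - g (π2 ω)) ^ 2) := fun w =>
    continuous_const.add (continuous_const.mul (((cT z w).sub c2).pow 2))
  have q5 : Continuous fun ω : Cfg2 => ∑ w ∈ W, (1 / (16 * (2 * (A:ℝ) + 1)) +
        4 * (2 * A + 1) * (g (T a1 z w (π2 ω)) - g (π2 ω)) ^ 2) :=
    continuous_finsetSum _ fun w _ => q4 w
  have q6 : Continuous fun ω : Cfg2 => (g (T a1 z y (π1 ω)) - g (π1 ω)) ^ 2 :=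
    ((cT1 z y).sub c1).pow 2
  have key3 := integral_mono_ae (μ := ν)
    (cint ν (((((q1.sub q2).sub q3).sub c6).sub q5).sub continuous_const |>.sub continuous_const))
    (cint ν q6) key2
  have b1 := cint ν q1
  have b2 := cint ν q2
  have b3 := cint ν q3
  have b5 := cint ν q5
  have b12 := cint ν (q1.sub q2)
  have b123 := cint ν ((q1.sub q2).sub q3)
  have b1234 := cint ν (((q1.sub q2).sub q3).sub c6)
  have b12345 := cint ν ((((q1.sub q2).sub q3).sub c6).sub q5)
  have b6 := cint ν (((((q1.sub q2).sub q3).sub c6).sub q5).sub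
    (continuous_const (y := (1/4 : ℝ))))
  rw [integral_sub' b6 (integrable_const _), integral_sub' b12345 (integrable_const _),
    integral_sub' b1234 b5, integral_sub' b123 I6, integral_sub' b12 b3, integral_sub' b1 b2,
    integral_finsetSum _ fun w _ => cint ν (q4 w)] at key3
  have e2' : ∫ ω, (1 - (cnt A (π1 ω) - cnt A (π2 ω))) ∂ν =
      1 - ∫ ω, (cnt A (π1 ω) - cnt A (π2 ω)) ∂ν := by
    have I34 : Integrable (fun ω => cnt A (π1 ω) - cnt A (π2 ω)) ν := I3.sub I4
    rw [integral_sub (integrable_const _) I34]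
    simp
  have e3' : ∀ w ∈ W, ∫ ω, (1 / (16 * (2 * (A:ℝ) + 1)) +
        4 * (2 * A + 1) * (g (T a1 z w (π2 ω)) - g (π2 ω)) ^ 2) ∂ν =
      1 / (16 * (2 * (A:ℝ) + 1)) + 4 * (2 * A + 1) *
        ∫ η, (g (T a1 z w η) - g η) ^ 2 ∂(μ.map sh) := by
    intro w _
    have Iw : Integrable (fun ω => 4 * (2 * (A:ℝ) + 1) * (g (T a1 z w (π2 ω)) - g (π2 ω)) ^ 2) ν :=
      cint ν (continuous_const.mul (((cT z w).sub c2).pow 2))
    rw [integral_add (integrable_const _) Iw, integral_const_mul,
      push2 (fun η => (g (T a1 z w η) - g η) ^ 2)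
        (((g.continuous.comp (continuous_T a1 z w)).sub g.continuous).pow 2)]
    simp
  rw [Finset.sum_congr rfl e3', e2', i2, Finset.sum_add_distrib, ← Finset.mul_sum,
    ← push1 (fun η => (g (T a1 z y η) - g η) ^ 2)
      (((g.continuous.comp (continuous_T a1 z y)).sub g.continuous).pow 2)] at key3
  have e4' : ∑ w ∈ W, (1 / (16 * (2 * (A:ℝ) + 1))) = 1 / 16 := by
    rw [Finset.sum_const, hW, Int.card_Icc, nsmul_eq_mul]
    have : ((A:ℤ) + 1 - -(A:ℤ)).toNat = 2 * A + 1 := by omega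
    rw [this]; push_cast; field_simp
  rw [e4'] at key3
  simp only [integral_const, probReal_univ, smul_eq_mul, one_mul] at key3
  linarith

end Pool.Agent.K1H53.EX
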