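import Pool.Agent.K1H53.EX.Fin1

/-! # The final computation, part 2 -/

set_option autoImplicit false

open MeasureTheory Filter Topology
open scoped ENNReal

namespace Pool.Agent.K1H53.EX

theorem cont_int (μ : Measure Cfg) [IsProbabilityMeasure μ] :
    Continuous (fun f : C(Cfg, ℝ) => ∫ η, f η ∂μ) := by
  refine LipschitzWith.continuous (K := 1) (LipschitzWith.of_dist_le_mul fun f g => ?_)
  rw [Real.dist_eq, ← integral_sub (cint μ f.continuous) (cint μ g.continuous), ← Real.norm_eq_abs,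
    NNReal.coe_one, one_mul]
  refine (norm_integral_le_of_norm_le_const (C := dist f g) (ae_of_all _ fun η => ?_)).trans ?_
  · rw [Real.norm_eq_abs, ← Real.dist_eq]
    exact ContinuousMap.dist_apply_le_dist η
  · simp

theorem cont_sq (μ : Measure Cfg) [IsProbabilityMeasure μ] (u v : ℤ) :
    Continuous (fun f : C(Cfg, ℝ) => ∫ η, (f (T a1 u v η) - f η) ^ 2 ∂μ) := by
  have h : Continuous (fun f : C(Cfg, ℝ) => (compL (TC a1 u v) f - f) ^ 2) :=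
    (((compL (TC a1 u v)).continuous).sub continuous_id).pow 2
  exact (cont_int μ).comp h

/-- the inequality between the two energies -/
theorem main_ineq {p : ℤ → ℝ} {P : ℝ → C(Cfg, ℝ) →L[ℝ] C(Cfg, ℝ)} (hp : ∀ m, 0 ≤ p m)
    (hs : Summable p) (hs1 : Summable (fun m : ℤ => |(m : ℝ)| * p m)) (hP : IsSG a1 p P)
    (hEN : S_EN) (hSPD : S_SPD) {μ : Measure Cfg} [IsProbabilityMeasure μ] (hInv : Inv P μ)
    (hInv' : Inv P (μ.map sh)) {ν : Measure Cfg2} [IsProbabilityMeasure ν]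
    (hν1 : ν.map π1 = μ) (hν2 : ν.map π2 = μ.map sh)
    (hν3 : ∀ᵐ ω ∂ν, ∃ x : ℤ, (π1 ω) x = true ∧ π2 ω = Function.update (π1 ω) x false)
    (A : ℕ) (hA1 : ∀ x : ℤ, x ≤ -(A:ℤ) → μ.real {η | η x = true} ≤ 1 / 32)
    (hA2 : ∀ x : ℤ, (A:ℤ) ≤ x → 1 - 1 / 32 ≤ μ.real {η | η x = true})
    (k J : ℕ) (t₀ s pk : ℝ) (ht : 0 ≤ t₀) (hs0 : 0 ≤ s) (hpk : 0 < pk)
    (hJ : (A:ℝ) + 1 + 8 * (∑' m : ℤ, |(m : ℝ)| * p m) * t₀ ≤ J)
    (hsl : ∀ z ∈ Finset.Icc ((A:ℤ) + 1) (A + k), ∀ y ∈ Finset.Icc (-(2 * J : ℤ)) (-(J:ℤ)),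
      s ≤ p (y - z))
    (hpl : ∀ z ∈ Finset.Icc ((A:ℤ) + 1) (A + k), ∀ w ∈ Finset.Icc (-(A:ℤ)) A,
      pk ≤ p (w - z)) :
    s * (J + 1) * (k * t₀ / 4 - 4 * (2 * A + 1) ^ 3 / pk) ≤ (2 * (A:ℝ) + 1) ^ 2 := by
  have : IsProbabilityMeasure (μ.map sh) :=
    Measure.isProbabilityMeasure_map sh.continuous.measurable.aemeasurable
  set m1 := ∑' m : ℤ, |(m : ℝ)| * p m with hm1
  have hm1' : 0 ≤ m1 := tsum_nonneg fun m => mul_nonneg (abs_nonneg _) (hp m)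
  set Z := Finset.Icc ((A:ℤ) + 1) (A + k) with hZ
  set W := Finset.Icc (-(A:ℤ)) A with hW
  set Y := Finset.Icc (-(2 * J : ℤ)) (-(J:ℤ)) with hY
  let D : Measure Cfg → ℤ → ℤ → ℝ → ℝ := fun m z y t =>
    ∫ η, (P t (cnt A) (T a1 z y η) - P t (cnt A) η) ^ 2 ∂m
  have Dnn : ∀ (m : Measure Cfg) z y t, 0 ≤ D m z y t := fun m z y t =>
    integral_nonneg fun η => sq_nonneg _
  have Dc : ∀ (m : Measure Cfg) [IsProbabilityMeasure m] z y,
      ContinuousOn (D m z y) (Set.Icc 0 t₀) := fun m _ z y =>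
    ((cont_sq m z y).comp_continuousOn (hP.cont (cnt A))).mono Set.Icc_subset_Ici_self
  have sqb : ∀ (m : Measure Cfg) [IsProbabilityMeasure m],
      ∫ η, (cnt A η) ^ 2 ∂m ≤ (2 * (A:ℝ) + 1) ^ 2 := by
    intro m _
    calc ∫ η, (cnt A η) ^ 2 ∂m ≤ ∫ η, (2 * (A:ℝ) + 1) ^ 2 ∂m := by
          refine integral_mono (cint m ((cnt A).continuous.pow 2)) (integrable_const _) fun η => ?_
          exact pow_le_pow_left₀ (cnt_nonneg A η) (cnt_le A η) 2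
      _ = (2 * (A:ℝ) + 1) ^ 2 := by simp
  -- the two energy inequalities
  have en1 : ∫ t in (0:ℝ)..t₀, ∑ z ∈ Z, ∑ w ∈ W, p (w - z) * D (μ.map sh) z w t ≤
      (2 * (A:ℝ) + 1) ^ 2 := by
    have h := hEN Bool a1 p P (μ.map sh) hp hP inferInstance hInv' (cnt A) (Z ×ˢ W) t₀ ht
    simp only [Finset.sum_product] at h
    exact h.trans (sqb _)
  have en2 : ∫ t in (0:ℝ)..t₀, ∑ z ∈ Z, ∑ y ∈ Y, p (y - z) * D μ z y t ≤
      (2 * (A:ℝ) + 1) ^ 2 := by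
    have h := hEN Bool a1 p P μ hp hP inferInstance hInv (cnt A) (Z ×ˢ Y) t₀ ht
    simp only [Finset.sum_product] at h
    exact h.trans (sqb _)
  have c1 : ContinuousOn (fun t => ∑ z ∈ Z, ∑ w ∈ W, p (w - z) * D (μ.map sh) z w t)
      (Set.Icc 0 t₀) :=
    continuousOn_finsetSum _ fun z _ => continuousOn_finsetSum _ fun w _ =>
      continuousOn_const.mul (Dc _ z w)
  have c2 : ContinuousOn (fun t => ∑ z ∈ Z, ∑ y ∈ Y, p (y - z) * D μ z y t)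
      (Set.Icc 0 t₀) :=
    continuousOn_finsetSum _ fun z _ => continuousOn_finsetSum _ fun y _ =>
      continuousOn_const.mul (Dc _ z y)
  have cardZ : (Z.card : ℝ) = k := by
    rw [hZ, Int.card_Icc]
    have : ((A:ℤ) + k + 1 - ((A:ℤ) + 1)).toNat = k := by omega
    rw [this]
  have cardY : (Y.card : ℝ) = J + 1 := by
    rw [hY, Int.card_Icc]
    have : (-(J:ℤ) + 1 - -(2 * (J:ℤ))).toNat = J + 1 := by omega
    rw [this]; push_cast; ring
  -- pointwise comparison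
  have pw : ∀ t ∈ Set.Icc 0 t₀, s * (J + 1) * (k / 4 - 4 * (2 * A + 1) / pk *
      ∑ z ∈ Z, ∑ w ∈ W, p (w - z) * D (μ.map sh) z w t) ≤
      ∑ z ∈ Z, ∑ y ∈ Y, p (y - z) * D μ z y t := by
    intro t htt
    have h1 : ∀ z ∈ Z, ∀ y ∈ Y, 1 / 4 - 4 * (2 * (A:ℝ) + 1) * ∑ w ∈ W, D (μ.map sh) z w t ≤
        D μ z y t := by
      intro z hz y hy
      rw [hZ, Finset.mem_Icc] at hz
      rw [hY, Finset.mem_Icc] at hy
      have hJA : (A:ℝ) + 1 ≤ J := by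
        have : 0 ≤ 8 * m1 * t₀ := by positivity
        linarith
      have hJA' : (A:ℤ) + 1 ≤ J := by exact_mod_cast hJA
      have hyr : (y:ℝ) ≤ -(J:ℝ) := by exact_mod_cast hy.2
      refine emission hp hs hs1 hP hSPD hInv hInv' hν1 hν2 hν3 A hA1 hA2 t htt.1 z y hz.1
        (by omega) ?_
      have hpos : 0 < -(y:ℝ) - A := by linarith
      rw [div_le_iff₀ hpos, ← hm1]
      have h3 : m1 * t ≤ m1 * t₀ := mul_le_mul_of_nonneg_left htt.2 hm1'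
      linarith
    have h2 : ∀ z ∈ Z, s * (J + 1) * (1 / 4 - 4 * (2 * (A:ℝ) + 1) * ∑ w ∈ W, D (μ.map sh) z w t) ≤
        ∑ y ∈ Y, p (y - z) * D μ z y t := by
      intro z hz
      calc s * (J + 1) * (1 / 4 - 4 * (2 * (A:ℝ) + 1) * ∑ w ∈ W, D (μ.map sh) z w t)
          = ∑ y ∈ Y, s * (1 / 4 - 4 * (2 * (A:ℝ) + 1) * ∑ w ∈ W, D (μ.map sh) z w t) := by
            rw [Finset.sum_const, nsmul_eq_mul, cardY]; ring
        _ ≤ ∑ y ∈ Y, p (y - z) * D μ z y t := by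
            refine Finset.sum_le_sum fun y hy => ?_
            calc s * (1 / 4 - 4 * (2 * (A:ℝ) + 1) * ∑ w ∈ W, D (μ.map sh) z w t)
                ≤ s * D μ z y t := mul_le_mul_of_nonneg_left (h1 z hz y hy) hs0
              _ ≤ p (y - z) * D μ z y t :=
                  mul_le_mul_of_nonneg_right (hsl z hz y hy) (Dnn _ _ _ _)
    have h3 : pk * ∑ z ∈ Z, ∑ w ∈ W, D (μ.map sh) z w t ≤
        ∑ z ∈ Z, ∑ w ∈ W, p (w - z) * D (μ.map sh) z w t := by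
      rw [Finset.mul_sum]
      refine Finset.sum_le_sum fun z hz => ?_
      rw [Finset.mul_sum]
      exact Finset.sum_le_sum fun w hw => mul_le_mul_of_nonneg_right (hpl z hz w hw) (Dnn _ _ _ _)
    have h4 : ∑ z ∈ Z, s * (J + 1) * (1 / 4 - 4 * (2 * (A:ℝ) + 1) *
        ∑ w ∈ W, D (μ.map sh) z w t) = s * (J + 1) * (k / 4 - 4 * (2 * (A:ℝ) + 1) *
        ∑ z ∈ Z, ∑ w ∈ W, D (μ.map sh) z w t) := by
      rw [← Finset.mul_sum, Finset.sum_sub_distrib, ← Finset.mul_sum, Finset.sum_const,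
        nsmul_eq_mul, cardZ]
      ring
    have h5 := Finset.sum_le_sum h2
    rw [h4] at h5
    refine le_trans ?_ h5
    refine mul_le_mul_of_nonneg_left ?_ (by positivity)
    have h6 : ∑ z ∈ Z, ∑ w ∈ W, D (μ.map sh) z w t ≤
        (∑ z ∈ Z, ∑ w ∈ W, p (w - z) * D (μ.map sh) z w t) / pk := by
      rw [le_div_iff₀ hpk]; linarith
    have h7 : 4 * (2 * (A:ℝ) + 1) * ∑ z ∈ Z, ∑ w ∈ W, D (μ.map sh) z w t ≤
        4 * (2 * (A:ℝ) + 1) * ((∑ z ∈ Z, ∑ w ∈ W, p (w - z) * D (μ.map sh) z w t) / pk) :=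
      mul_le_mul_of_nonneg_left h6 (by positivity)
    have h8 : 4 * (2 * (A:ℝ) + 1) / pk * (∑ z ∈ Z, ∑ w ∈ W, p (w - z) * D (μ.map sh) z w t) =
        4 * (2 * (A:ℝ) + 1) * ((∑ z ∈ Z, ∑ w ∈ W, p (w - z) * D (μ.map sh) z w t) / pk) := by
      ring
    linarith
  have ii1 : IntervalIntegrable (fun t => ∑ z ∈ Z, ∑ w ∈ W, p (w - z) * D (μ.map sh) z w t)
      volume 0 t₀ := by
    apply ContinuousOn.intervalIntegrable
    rwa [Set.uIcc_of_le ht]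
  have ii2 : IntervalIntegrable (fun t => ∑ z ∈ Z, ∑ y ∈ Y, p (y - z) * D μ z y t)
      volume 0 t₀ := by
    apply ContinuousOn.intervalIntegrable
    rwa [Set.uIcc_of_le ht]
  have hmono := intervalIntegral.integral_mono_on ht
    ((intervalIntegrable_const (c := (k:ℝ) / 4)).sub (ii1.const_mul (4 * (2 * (A:ℝ) + 1) / pk))
      |>.const_mul (s * (J + 1))) ii2 pw
  rw [intervalIntegral.integral_const_mul, intervalIntegral.integral_sub
    intervalIntegrable_const (ii1.const_mul _), intervalIntegral.integral_const_mul,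
    intervalIntegral.integral_const] at hmono
  have h9 := hmono.trans en2
  refine le_trans ?_ h9
  refine mul_le_mul_of_nonneg_left ?_ (by positivity)
  have h10 : 4 * (2 * (A:ℝ) + 1) / pk *
      (∫ t in (0:ℝ)..t₀, ∑ z ∈ Z, ∑ w ∈ W, p (w - z) * D (μ.map sh) z w t) ≤
      4 * (2 * (A:ℝ) + 1) / pk * (2 * (A:ℝ) + 1) ^ 2 :=
    mul_le_mul_of_nonneg_left en1 (by positivity)
  have h11 : 4 * (2 * (A:ℝ) + 1) / pk * (2 * (A:ℝ) + 1) ^ 2 = 4 * (2 * (A:ℝ) + 1) ^ 3 / pk := by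
    ring
  rw [smul_eq_mul, sub_zero]
  have h12 : t₀ * ((k:ℝ) / 4) = k * t₀ / 4 := by ring
  rw [h12]
  linarith

end Pool.Agent.K1H53.EX
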