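import Pool.Agent.K1H53.EX.Fin2

/-! # The final computation, part 3: asymptotics -/

set_option autoImplicit false

open MeasureTheory Filter Topology
open scoped ENNReal

namespace Pool.Agent.K1H53.EX

/-- the choice of the parameters -/
theorem asymp (A : ℕ) (c α γ m1 : ℝ) (hc : 0 < c) (hα : 0 < α) (hγ1 : 1 ≤ γ)
    (h1 : 0 < 1 + γ - α) (h2 : 0 < 1 + γ * (2 - α)) (hm1 : 0 < m1) :
    ∃ k J : ℕ, 1 ≤ k ∧ (A:ℝ) + 1 + 8 * m1 * (k:ℝ) ^ γ ≤ J ∧
      (2 * (A:ℝ) + 1) ^ 2 < c * ((A:ℝ) + k + 2 * J) ^ (-α) * (J + 1) *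
        (k * (k:ℝ) ^ γ / 4 - 4 * (2 * A + 1) ^ 3 / (c * (2 * (A:ℝ) + k) ^ (-α))) := by
  set C2 : ℝ := 3 * A + 5 + 16 * m1 with hC2
  have hC2pos : 0 < C2 := by positivity
  have t1 : Tendsto (fun k : ℕ => (k:ℝ) ^ (1 + γ - α)) atTop atTop :=
    (tendsto_rpow_atTop h1).comp tendsto_natCast_atTop_atTop
  have t2 : Tendsto (fun k : ℕ => (k:ℝ) ^ (1 + γ * (2 - α))) atTop atTop :=
    (tendsto_rpow_atTop h2).comp tendsto_natCast_atTop_atTop
  have e1 := t1.eventually_ge_atTop (32 * (2 * (A:ℝ) + 1) ^ 3 * 2 ^ α / c)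
  have e2 := t2.eventually_gt_atTop ((2 * (A:ℝ) + 1) ^ 2 / (c * m1 * C2 ^ (-α)))
  obtain ⟨k, hk1, hk2, hk3, hk4⟩ := (e1.and (e2.and ((eventually_ge_atTop 1).and
    (eventually_ge_atTop (2 * A))))).exists
  have hk0 : (0:ℝ) < k := by exact_mod_cast hk3
  have hk1' : (1:ℝ) ≤ k := by exact_mod_cast hk3
  have hk4' : 2 * (A:ℝ) ≤ k := by exact_mod_cast hk4
  set T := (k:ℝ) ^ γ with hT
  have hTk : (k:ℝ) ≤ T := by
    calc (k:ℝ) = (k:ℝ) ^ (1:ℝ) := (Real.rpow_one _).symm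
      _ ≤ (k:ℝ) ^ γ := Real.rpow_le_rpow_of_exponent_le hk1' hγ1
  have hT0 : 0 < T := by linarith
  have hT1 : 1 ≤ T := by linarith
  set J := ⌈(A:ℝ) + 1 + 8 * m1 * T⌉₊ with hJ
  have hJ1 : (A:ℝ) + 1 + 8 * m1 * T ≤ J := Nat.le_ceil _
  have hJ2 : (J:ℝ) < (A:ℝ) + 1 + 8 * m1 * T + 1 := Nat.ceil_lt_add_one (by positivity)
  refine ⟨k, J, hk3, hJ1, ?_⟩
  -- first claim
  have hpow : (0:ℝ) < (2 * (A:ℝ) + k) ^ α := Real.rpow_pos_of_pos (by positivity) _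
  have c1 : 4 * (2 * (A:ℝ) + 1) ^ 3 / (c * (2 * (A:ℝ) + k) ^ (-α)) ≤ k * T / 8 := by
    rw [Real.rpow_neg (by positivity)]
    have : 4 * (2 * (A:ℝ) + 1) ^ 3 / (c * ((2 * (A:ℝ) + k) ^ α)⁻¹) =
        4 * (2 * (A:ℝ) + 1) ^ 3 * (2 * (A:ℝ) + k) ^ α / c := by
      field_simp
    rw [this, div_le_iff₀ hc]
    have h3 : (2 * (A:ℝ) + k) ^ α ≤ 2 ^ α * (k:ℝ) ^ α := by
      rw [← Real.mul_rpow (by norm_num) hk0.le]
      exact Real.rpow_le_rpow (by positivity) (by linarith) hα.le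
    have h4 : (k:ℝ) ^ (1 + γ - α) * (k:ℝ) ^ α = k * T := by
      rw [← Real.rpow_add hk0, hT]
      have : 1 + γ - α + α = 1 + γ := by ring
      rw [this, Real.rpow_add hk0, Real.rpow_one]
    rw [div_le_iff₀ hc] at hk1
    have hkα : (0:ℝ) < (k:ℝ) ^ α := Real.rpow_pos_of_pos hk0 _
    have h5 : 32 * (2 * (A:ℝ) + 1) ^ 3 * 2 ^ α * (k:ℝ) ^ α ≤ (k:ℝ) ^ (1 + γ - α) * c * (k:ℝ) ^ α :=
      mul_le_mul_of_nonneg_right hk1 hkα.le
    have h6 : (k:ℝ) ^ (1 + γ - α) * c * (k:ℝ) ^ α = k * T * c := by rw [← h4]; ring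
    have h7 : 4 * (2 * (A:ℝ) + 1) ^ 3 * (2 * (A:ℝ) + k) ^ α ≤
        4 * (2 * (A:ℝ) + 1) ^ 3 * (2 ^ α * (k:ℝ) ^ α) :=
      mul_le_mul_of_nonneg_left h3 (by positivity)
    nlinarith
  -- second claim
  have c2 : c * C2 ^ (-α) * T ^ (-α) ≤ c * ((A:ℝ) + k + 2 * J) ^ (-α) := by
    rw [mul_assoc]
    refine mul_le_mul_of_nonneg_left ?_ hc.le
    rw [← Real.mul_rpow hC2pos.le hT0.le]
    refine Real.rpow_le_rpow_of_nonpos (by positivity) ?_ (by linarith)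
    rw [hC2]
    have hA0 : (0:ℝ) ≤ A := Nat.cast_nonneg _
    nlinarith
  have c3 : (2 * (A:ℝ) + 1) ^ 2 < c * C2 ^ (-α) * T ^ (-α) * (8 * m1 * T) * (k * T / 8) := by
    have h3 : c * C2 ^ (-α) * T ^ (-α) * (8 * m1 * T) * (k * T / 8) =
        (c * m1 * C2 ^ (-α)) * (k * (T ^ (-α) * T * T)) := by ring
    have h4 : (k:ℝ) * (T ^ (-α) * T * T) = (k:ℝ) ^ (1 + γ * (2 - α)) := by
      have : T ^ (-α) * T * T = T ^ (2 - α) := by
        conv_lhs => rw [mul_assoc]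
        have h5 : T * T = T ^ (2:ℝ) := by
          rw [show (2:ℝ) = ((2:ℕ):ℝ) by norm_num, Real.rpow_natCast]; ring
        rw [h5, ← Real.rpow_add hT0]
        congr 1; ring
      rw [this, hT, ← Real.rpow_mul hk0.le, Real.rpow_add hk0, Real.rpow_one]
    rw [h3, h4]
    rw [div_lt_iff₀ (by positivity)] at hk2
    linarith
  have hs0 : 0 < c * ((A:ℝ) + k + 2 * J) ^ (-α) := by
    refine mul_pos hc (Real.rpow_pos_of_pos (by positivity) _)
  calc (2 * (A:ℝ) + 1) ^ 2 < c * C2 ^ (-α) * T ^ (-α) * (8 * m1 * T) * (k * T / 8) := c3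
    _ ≤ c * ((A:ℝ) + k + 2 * J) ^ (-α) * (J + 1) *
        (k * T / 4 - 4 * (2 * A + 1) ^ 3 / (c * (2 * (A:ℝ) + k) ^ (-α))) := by
      refine mul_le_mul (mul_le_mul c2 ?_ (by positivity) hs0.le) ?_ (by positivity) (by positivity)
      · linarith
      · linarith

theorem fin (hSG : S_SG) (hEN : S_EN) (hMARG : S_MARG) (hSPD : S_SPD) (hNU : S_NU) : S_MAIN := by
  intro p c α hp hs hs1 hc hα hlow
  rintro ⟨μ, hμ, hStat, hB⟩
  have hm : ∀ m : ℤ, m < 0 → 0 < p m := by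
    intro m hm
    obtain ⟨n, rfl⟩ : ∃ n : ℕ, m = -(n:ℤ) := ⟨m.natAbs, by omega⟩
    have hn : 1 ≤ n := by omega
    refine lt_of_lt_of_le ?_ (hlow n hn)
    exact mul_pos hc (Real.rpow_pos_of_pos (by exact_mod_cast hn) _)
  -- α > 2
  have hα0 : 0 < α := by nlinarith [sq_nonneg α]
  have hα2 : 2 < α := by
    have h1 : Summable (fun n : ℕ => |((-(n:ℤ) : ℤ) : ℝ)| * p (-(n:ℤ))) :=
      hs1.comp_injective (i := fun n : ℕ => -(n:ℤ)) (fun a b h => by simpa using h)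
    have h2 : Summable (fun n : ℕ => c * (n:ℝ) ^ (1 - α)) := by
      refine Summable.of_nonneg_of_le (fun n => by positivity) (fun n => ?_)
        (h1.add ((summable_of_hasFiniteSupport (f := fun n : ℕ => if n = 0 then c else 0)
          ((Set.finite_singleton 0).subset (by intro n hn; by_contra h; simp_all)))))
      rcases Nat.eq_zero_or_pos n with rfl | hn
      · by_cases h : (1 - α) = 0
        · simp [h]
        · simp [Real.zero_rpow h, hc.le]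
      · have hn' : (0:ℝ) < n := by exact_mod_cast hn
        have h3 := hlow n hn
        have h4 : |((-(n:ℤ) : ℤ) : ℝ)| = n := by push_cast; rw [abs_neg]; exact abs_of_pos hn'
        rw [h4, if_neg (by omega), add_zero]
        calc c * (n:ℝ) ^ (1 - α) = n * (c * (n:ℝ) ^ (-α)) := by
              rw [sub_eq_add_neg, Real.rpow_add hn', Real.rpow_one]; ring
          _ ≤ n * p (-(n:ℤ)) := mul_le_mul_of_nonneg_left h3 hn'.le
    have h3 := (summable_mul_left_iff hc.ne').1 h2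
    have h4 := Real.summable_nat_rpow.1 h3
    linarith
  set γ := (α - 1 + 1 / (α - 2)) / 2 with hγ
  have hα3 : 0 < α - 2 := by linarith
  have hkey : (α - 1) * (α - 2) < 1 := by nlinarith
  have hkey' : α - 1 < 1 / (α - 2) := by rw [lt_div_iff₀ hα3]; exact hkey
  have hγ1 : α - 1 < γ := by rw [hγ]; linarith
  have hγ2 : γ < 1 / (α - 2) := by rw [hγ]; linarith
  have hγ3 : γ * (α - 2) < 1 := (lt_div_iff₀ hα3).1 hγ2
  -- the semigroups
  obtain ⟨P, hP⟩ := hSG Bool a1 p hp hs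
  obtain ⟨Q, hQ⟩ := hSG (Bool × Bool) a2 p hp hs
  have hInv : Inv P μ := hP.inv μ hμ hStat
  have hInv' : Inv P (μ.map sh) := by
    intro t ht f
    rw [integral_map sh.continuous.measurable.aemeasurable
        (P t f).continuous.measurable.aestronglyMeasurable,
      integral_map sh.continuous.measurable.aemeasurable
        f.continuous.measurable.aestronglyMeasurable]
    have h1 := hInv t ht (f.comp sh)
    rw [((hMARG p P Q hP hQ t ht f).2.2.1)] at h1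
    exact h1
  obtain ⟨ν, hν, hν1, hν2, hν3⟩ := hNU p μ hp hs hs1 hm hμ hStat hB
  -- choice of A
  obtain ⟨A, hA1, hA2⟩ : ∃ A : ℕ, (∀ x : ℤ, x ≤ -(A:ℤ) → μ.real {η | η x = true} ≤ 1 / 32) ∧
      (∀ x : ℤ, (A:ℤ) ≤ x → 1 - 1 / 32 ≤ μ.real {η | η x = true}) := by
    obtain ⟨a, ha⟩ := (eventually_atBot.1 (hB.1.eventually_le_const (by norm_num : (0:ℝ) < 1 / 32)))
    obtain ⟨b, hb⟩ := (eventually_atTop.1 (hB.2.eventually_const_le
      (by norm_num : (1 - 1 / 32 : ℝ) < 1)))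
    refine ⟨max a.natAbs b.natAbs, fun x hx => ha x (by omega), fun x hx => hb x (by omega)⟩
  set m1 := ∑' m : ℤ, |(m : ℝ)| * p m with hm1
  have hm1pos : 0 < m1 := by
    have h1 := hs1.le_tsum (-1) (fun m _ => mul_nonneg (abs_nonneg _) (hp m))
    have h2 := hm (-1) (by norm_num)
    simp at h1
    linarith
  obtain ⟨k, J, hk, hJ, hfin⟩ := asymp A c α γ m1 hc hα0 (by linarith) (by linarith)
    (by nlinarith) hm1pos
  have hk0 : (0:ℝ) < k := by exact_mod_cast hk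
  have hmain := main_ineq hp hs hs1 hP hEN hSPD hInv hInv' hν1 hν2 hν3 A hA1 hA2 k J ((k:ℝ) ^ γ)
    (c * ((A:ℝ) + k + 2 * J) ^ (-α)) (c * (2 * (A:ℝ) + k) ^ (-α)) (by positivity) (by positivity)
    (mul_pos hc (Real.rpow_pos_of_pos (by positivity) _)) hJ ?_ ?_
  · exact absurd hfin (not_lt.2 hmain)
  · intro z hz y hy
    rw [Finset.mem_Icc] at hz hy
    obtain ⟨n, hn⟩ : ∃ n : ℕ, (n:ℤ) = z - y := ⟨(z - y).toNat, by omega⟩
    have hJ0 : 1 ≤ J := by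
      have : (0:ℝ) < J := by
        have : 0 ≤ 8 * m1 * (k:ℝ) ^ γ := by positivity
        have hA0 : (0:ℝ) ≤ A := Nat.cast_nonneg _
        linarith
      exact_mod_cast this
    have hn1 : 1 ≤ n := by omega
    have h3 := hlow n hn1
    have h4 : y - z = -(n:ℤ) := by omega
    rw [h4]
    refine le_trans (mul_le_mul_of_nonneg_left ?_ hc.le) h3
    refine Real.rpow_le_rpow_of_nonpos (by exact_mod_cast hn1) ?_ (by linarith)
    have h5 : (n:ℤ) ≤ (A:ℤ) + k + 2 * J := by omega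
    exact_mod_cast h5
  · intro z hz w hw
    rw [Finset.mem_Icc] at hz hw
    obtain ⟨n, hn⟩ : ∃ n : ℕ, (n:ℤ) = z - w := ⟨(z - w).toNat, by omega⟩
    have hn1 : 1 ≤ n := by omega
    have h3 := hlow n hn1
    have h4 : w - z = -(n:ℤ) := by omega
    rw [h4]
    refine le_trans (mul_le_mul_of_nonneg_left ?_ hc.le) h3
    refine Real.rpow_le_rpow_of_nonpos (by exact_mod_cast hn1) ?_ (by linarith)
    have h5 : (n:ℤ) ≤ 2 * (A:ℤ) + k := by omega
    exact_mod_cast h5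

end Pool.Agent.K1H53.EX
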