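import Pool.Agent.K1H53.EX.Plan

/-! # Condition (H) and an explicit kernel -/

set_option autoImplicit false

open MeasureTheory Filter Topology

namespace Pool.Agent.K1H53.EX

/-- Condition (H) of the problem: a probability kernel whose random walk is irreducible, with finite
mean, positive drift and infinite second moment of the left tail. -/
structure KernelH (p : ℤ → ℝ) : Prop where
  nonneg : ∀ m, 0 ≤ p m
  sum_one : HasSum p 1
  irred : AddSubmonoid.closure {m : ℤ | 0 < p m} = ⊤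
  mean : Summable fun m : ℤ => |(m : ℝ)| * p m
  drift : 0 < ∑' m : ℤ, (m : ℝ) * p m
  second : ¬ Summable fun m : ℕ => (m : ℝ) ^ 2 * p (-(m : ℤ))

/-- An explicit kernel: `p(-m) = m ^ (-5/2) / 10` for `m ≥ 1`, the rest of the mass at `1`. -/
noncomputable def p0 (m : ℤ) : ℝ :=
  if m < 0 then (1 / 10) * (-(m : ℝ)) ^ (-(5 / 2 : ℝ))
  else if m = 1 then 1 - (1 / 10) * ∑' k : ℕ, ((k : ℝ) + 1) ^ (-(5 / 2 : ℝ))
  else 0

/-- **Piece KER.** -/
def S_KER : Prop :=
  KernelH p0 ∧ ∀ m : ℕ, 1 ≤ m → (1 / 10) * (m : ℝ) ^ (-(5 / 2 : ℝ)) ≤ p0 (-(m : ℤ))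

end Pool.Agent.K1H53.EX
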