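import Pool.Agent.K1H53.EX.Plan2

/-! # The coupling of `μ` and its shift with exactly one discrepancy -/

set_option autoImplicit false

open MeasureTheory Filter Topology
open scoped ENNReal

namespace Pool.Agent.K1H53.EX

/-- coordinate function -/
noncomputable def e1 (y : ℤ) : C(Cfg, ℝ) :=
  ⟨fun η => if η y = true then (1 : ℝ) else 0,
    (continuous_of_discreteTopology (f := fun b : Bool => if b = true then (1 : ℝ) else 0)).comp
      (continuous_apply y)⟩

theorem meas1 (x : ℤ) (b : Bool) : MeasurableSet {η : Cfg | η x = b} :=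
  measurableSet_eq_fun (measurable_pi_apply x) measurable_const

theorem meas21 (x : ℤ) (b : Bool) : MeasurableSet {ω : Cfg2 | (ω x).1 = b} :=
  measurableSet_eq_fun ((measurable_pi_apply x).fst) measurable_const

theorem meas22 (x : ℤ) (b : Bool) : MeasurableSet {ω : Cfg2 | (ω x).2 = b} :=
  measurableSet_eq_fun ((measurable_pi_apply x).snd) measurable_const

/-- the closed set of pairs with the first configuration below the second one -/
def Bset : Set Cfg2 := {ω | ∀ x, (ω x).1 = true → (ω x).2 = true}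

theorem Bset_closed : IsClosed Bset := by
  have : Bset = ⋂ x : ℤ, {ω : Cfg2 | (ω x).1 = true → (ω x).2 = true} := by
    ext ω; simp [Bset]
  rw [this]
  refine isClosed_iInter fun x => ?_
  have h1 : IsClosed ((fun ω : Cfg2 => ω x) ⁻¹' {b : Bool × Bool | b.1 = true → b.2 = true}) :=
    (isClosed_discrete _).preimage (continuous_apply x)
  exact h1

theorem a2_mono : ∀ s t : Bool × Bool, (s.1 = true → s.2 = true) → (t.1 = true → t.2 = true) →
    (((a2 (s, t)).1.1 = true → (a2 (s, t)).1.2 = true) ∧
      ((a2 (s, t)).2.1 = true → (a2 (s, t)).2.2 = true)) := by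
  unfold a2 a1
  decide

theorem Bset_stable : ∀ ω ∈ Bset, ∀ u v : ℤ, T a2 u v ω ∈ Bset := by
  intro ω hω u v x
  unfold T
  split_ifs with h
  · exact hω x
  · have h2 := a2_mono (ω u) (ω v) (hω u) (hω v)
    by_cases hv : x = v
    · subst hv
      simp only [Function.update_self]
      exact h2.2
    · rw [Function.update_of_ne hv]
      by_cases hu : x = u
      · subst hu
        simp only [Function.update_self]
        exact h2.1
      · rw [Function.update_of_ne hu]
        exact hω x

theorem int_e1 (ν : Measure Cfg) (y : ℤ) : ∫ η, e1 y η ∂ν = ν.real {η | η y = true} := by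
  have : (fun η => e1 y η) = Set.indicator {η : Cfg | η y = true} (fun _ => (1:ℝ)) := by
    ext η
    by_cases h : η y = true
    · simp [e1, h]
    · simp [e1, h]
  rw [this, integral_indicator (meas1 y true)]
  simp [Measure.real]


theorem int_e1' {Ω : Type*} [MeasurableSpace Ω] (ν : Measure Ω) (X : Ω → Cfg)
    (hX : Measurable X) (y : ℤ) : ∫ ω, e1 y (X ω) ∂ν = ν.real {ω | X ω y = true} := by
  have h := int_e1 (ν.map X) y
  rw [integral_map hX.aemeasurable (e1 y).continuous.measurable.aestronglyMeasurable] at h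
  rw [h, Measure.real, Measure.map_apply hX (meas1 y true)]
  rfl

/-- equality of measures from the integrals of continuous functions -/
theorem meas_ext {μ ν : Measure Cfg} [IsProbabilityMeasure μ] [IsProbabilityMeasure ν]
    (h : ∀ f : C(Cfg, ℝ), ∫ η, f η ∂μ = ∫ η, f η ∂ν) : μ = ν := by
  apply ext_of_forall_integral_eq_of_IsFiniteMeasure
  intro f
  exact h f.toContinuousMap

theorem nuof : S_NUof := by
  intro hSG hCES hABS hMARG hFLUX hINV p μ hp hs hs1 hneg hμ hst hbl
  obtain ⟨P, hP⟩ := hSG Bool a1 p hp hs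
  obtain ⟨Q, hQ⟩ := hSG (Bool × Bool) a2 p hp hs
  have hInvP : Inv P μ := hP.inv μ hμ hst
  have : IsProbabilityMeasure (μ.map diag) :=
    Measure.isProbabilityMeasure_map diag.continuous.measurable.aemeasurable
  obtain ⟨ν, hν, hInvQ, hlim⟩ := hCES (Bool × Bool) a2 p Q (μ.map diag) hQ inferInstance
  have hint : ∀ f : C(Cfg2, ℝ), ∫ ω, f ω ∂(μ.map diag) = ∫ η, f (diag η) ∂μ := fun f =>
    integral_map diag.continuous.measurable.aemeasurable
      f.continuous.measurable.aestronglyMeasurable
  have hlim' : ∀ (f : C(Cfg2, ℝ)) (c : ℝ), (∀ t, 0 ≤ t → ∫ η, Q t f (diag η) ∂μ ≤ c) →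
      ∫ ω, f ω ∂ν ≤ c := by
    intro f c h
    refine hlim f c fun t ht => ?_
    rw [hint]
    exact h t ht
  have hlimeq : ∀ (f : C(Cfg2, ℝ)) (c : ℝ), (∀ t, 0 ≤ t → ∫ η, Q t f (diag η) ∂μ = c) →
      ∫ ω, f ω ∂ν = c := by
    intro f c h
    apply le_antisymm (hlim' f c fun t ht => (h t ht).le)
    have h2 := hlim' (-f) (-c) fun t ht => by
      have h3 := h t ht
      simp only [map_neg, ContinuousMap.neg_apply, integral_neg, h3, le_refl]
    simp only [ContinuousMap.neg_apply, integral_neg] at h2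
    linarith
  -- marginals
  have hm1 : IsProbabilityMeasure (ν.map π1) :=
    Measure.isProbabilityMeasure_map π1.continuous.measurable.aemeasurable
  have hm2 : IsProbabilityMeasure (ν.map π2) :=
    Measure.isProbabilityMeasure_map π2.continuous.measurable.aemeasurable
  have hm3 : IsProbabilityMeasure (μ.map sh) :=
    Measure.isProbabilityMeasure_map sh.continuous.measurable.aemeasurable
  have e1m : ν.map π1 = μ := by
    apply meas_ext
    intro f
    rw [integral_map π1.continuous.measurable.aemeasurable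
      f.continuous.measurable.aestronglyMeasurable]
    refine hlimeq (f.comp π1) _ fun t ht => ?_
    rw [(hMARG p P Q hP hQ t ht f).1, ← hInvP t ht f]
    rfl
  have e2m : ν.map π2 = μ.map sh := by
    apply meas_ext
    intro f
    rw [integral_map π2.continuous.measurable.aemeasurable
      f.continuous.measurable.aestronglyMeasurable,
      integral_map sh.continuous.measurable.aemeasurable
      f.continuous.measurable.aestronglyMeasurable]
    refine hlimeq (f.comp π2) _ fun t ht => ?_
    rw [(hMARG p P Q hP hQ t ht f).2.1]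
    have h1 := hInvP t ht (f.comp sh)
    rw [(hMARG p P Q hP hQ t ht f).2.2.1] at h1
    exact h1
  -- densities
  set ρ : ℤ → ℝ := fun x => μ.real {η | η x = true} with hρ
  have d1 : ∀ x, ν.real {ω | (ω x).1 = true} = ρ x := by
    intro x
    rw [hρ]
    show _ = μ.real _
    rw [← e1m, Measure.real, Measure.real, Measure.map_apply π1.continuous.measurable (meas1 x true)]
    rfl
  have d2 : ∀ x, ν.real {ω | (ω x).2 = true} = ρ (x - 1) := by
    intro x
    have h1 : (ν.map π2).real {η | η x = true} = (μ.map sh).real {η | η x = true} := by rw [e2m]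
    rw [Measure.real, Measure.real, Measure.map_apply π2.continuous.measurable (meas1 x true),
      Measure.map_apply sh.continuous.measurable (meas1 x true)] at h1
    exact h1
  have hbot : Tendsto ρ atBot (𝓝 0) := hbl.1
  have htop : Tendsto ρ atTop (𝓝 1) := hbl.2
  have sbot : Tendsto (fun x : ℤ => x - 1) atBot atBot := tendsto_atBot_add_const_right _ (-1) tendsto_id
  have stop : Tendsto (fun x : ℤ => x - 1) atTop atTop := tendsto_atTop_add_const_right _ (-1) tendsto_id
  have db : Tendsto (fun x : ℤ => ν.real {ω | (ω x).1 ≠ (ω x).2}) atBot (𝓝 0) := by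
    have h1 : Tendsto (fun x => ρ x + ρ (x - 1)) atBot (𝓝 0) := by
      have := hbot.add (hbot.comp sbot)
      simpa using this
    refine squeeze_zero (fun x => measureReal_nonneg) (fun x => ?_) h1
    rw [← d1 x, ← d2 x]
    refine (measureReal_mono ?_).trans (measureReal_union_le _ _)
    intro ω hω
    simp only [Set.mem_union, Set.mem_ofPred_eq] at hω ⊢
    cases h : (ω x).1 <;> cases h' : (ω x).2 <;> simp_all
  have dt : Tendsto (fun x : ℤ => ν.real {ω | (ω x).1 ≠ (ω x).2}) atTop (𝓝 0) := by
    have h1 : Tendsto (fun x => (1 - ρ x) + (1 - ρ (x - 1))) atTop (𝓝 0) := by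
      have := (htop.const_sub 1).add ((htop.comp stop).const_sub 1)
      simpa using this
    refine squeeze_zero (fun x => measureReal_nonneg) (fun x => ?_) h1
    have c1 : ν.real {ω | (ω x).1 = false} = 1 - ρ x := by
      rw [← d1 x, ← probReal_compl_eq_one_sub (meas21 x true)]
      congr 1; ext ω; simp
    have c2 : ν.real {ω | (ω x).2 = false} = 1 - ρ (x - 1) := by
      rw [← d2 x, ← probReal_compl_eq_one_sub (meas22 x true)]
      congr 1; ext ω; simp
    rw [← c1, ← c2]
    refine (measureReal_mono ?_).trans (measureReal_union_le _ _)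
    intro ω hω
    simp only [Set.mem_union, Set.mem_ofPred_eq] at hω ⊢
    cases h : (ω x).1 <;> cases h' : (ω x).2 <;> simp_all
  have hcomp := hFLUX p Q ν hp hs hs1 hneg hQ hν hInvQ db dt
  -- the bad event
  have hB := hINV p P Q μ ν Bset hp hP hQ hμ hInvP hν hInvQ hlim' Bset_closed Bset_stable
  set β : ℤ → ℝ := fun x => ν.real (Bset ∩ {ω | (ω x).2 = true}) with hβ
  have r1 : ∀ x, ν.real (Bset ∩ {ω | (ω x).1 = true}) = β (x + 1) := by
    intro x
    have h1 := hB (e1 x)
    rw [int_e1' (ν.restrict Bset) (fun ω => π1 ω) π1.continuous.measurable x,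
      int_e1' (ν.restrict Bset) (fun ω => shi (π2 ω))
        (shi.continuous.measurable.comp π2.continuous.measurable) x] at h1
    have m1 : MeasurableSet {ω : Cfg2 | π1 ω x = true} := meas21 x true
    have m2 : MeasurableSet {ω : Cfg2 | shi (π2 ω) x = true} := meas22 (x + 1) true
    rw [Measure.real, Measure.real, Measure.restrict_apply m1, Measure.restrict_apply m2] at h1
    have k1 : {ω : Cfg2 | π1 ω x = true} ∩ Bset = Bset ∩ {ω : Cfg2 | (ω x).1 = true} :=
      Set.inter_comm _ _
    have k2 : {ω : Cfg2 | shi (π2 ω) x = true} ∩ Bset =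
        Bset ∩ {ω : Cfg2 | (ω (x + 1)).2 = true} := Set.inter_comm _ _
    rw [k1, k2] at h1
    exact h1
  have r2 : ∀ x, β (x + 1) ≤ β x := by
    intro x
    rw [← r1 x]
    exact measureReal_mono (fun ω hω => ⟨hω.1, hω.1 x hω.2⟩)
  have r3 : Antitone β := antitone_int_of_succ_le r2
  have r4 : Tendsto β atBot (𝓝 0) := by
    refine squeeze_zero (fun x => measureReal_nonneg) (fun x => ?_) (hbot.comp sbot)
    show β x ≤ ρ (x - 1)
    rw [← d2 x]
    exact measureReal_mono Set.inter_subset_right
  have r5 : ∀ x, β x ≤ 0 := by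
    intro x
    refine ge_of_tendsto r4 ?_
    filter_upwards [eventually_le_atBot x] with y hy
    exact r3 hy
  have r6 : ν.real Bset ≤ 0 := by
    have h1 : ∀ x, ν.real Bset ≤ β x + (1 - ρ (x - 1)) := by
      intro x
      have c2 : ν.real {ω | (ω x).2 = false} = 1 - ρ (x - 1) := by
        rw [← d2 x, ← probReal_compl_eq_one_sub (meas22 x true)]
        congr 1; ext ω; simp
      rw [← c2]
      refine (measureReal_mono ?_).trans (measureReal_union_le _ _)
      intro ω hω
      by_cases h : (ω x).2 = true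
      · exact Or.inl ⟨hω, h⟩
      · right
        simpa using h
    have h2 : Tendsto (fun x : ℤ => (0:ℝ) + (1 - ρ (x - 1))) atTop (𝓝 0) := by
      have := (htop.comp stop).const_sub 1
      simpa using this
    refine ge_of_tendsto h2 (Eventually.of_forall fun x => (h1 x).trans ?_)
    linarith [r5 x]
  have hBnull : ∀ᵐ ω ∂ν, ω ∉ Bset := by
    have h1 : ν.real Bset = 0 := le_antisymm r6 measureReal_nonneg
    have h2 : ν Bset = 0 := (measureReal_eq_zero_iff).1 h1
    rw [ae_iff]
    simpa using h2
  have hord : ∀ᵐ ω ∂ν, (∀ x, (ω x).2 = true → (ω x).1 = true) ∧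
      ∃ x, (ω x).1 = true ∧ (ω x).2 = false := by
    filter_upwards [hcomp, hBnull] with ω h1 h2
    rcases h1 with h1 | h1
    · refine ⟨h1, ?_⟩
      simp only [Bset, Set.mem_ofPred_eq, not_forall] at h2
      obtain ⟨x, h3, h4⟩ := h2
      exact ⟨x, h3, by simpa using h4⟩
    · exact absurd h1 h2
  -- exactly one discrepancy
  let G : ℤ → Set Cfg2 := fun x => {ω | (ω x).1 = true} ∩ {ω | (ω x).2 = false}
  have Gm : ∀ x, MeasurableSet (G x) := fun x => (meas21 x true).inter (meas22 x false)
  have g1 : ∀ x, ν.real (G x) = ρ x - ρ (x - 1) := by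
    intro x
    have h1 : ν.real {ω | (ω x).1 = true} = ν.real (G x) + ν.real {ω | (ω x).2 = true} := by
      rw [← measureReal_union (by
        rw [Set.disjoint_left]
        intro ω h3 h4
        simp only [G, Set.mem_inter_iff, Set.mem_ofPred_eq] at h3 h4
        rw [h3.2] at h4
        exact Bool.noConfusion h4) (meas22 x true)]
      apply measureReal_congr
      filter_upwards [hord] with ω h3
      apply propext
      show ((ω x).1 = true) ↔ (ω ∈ G x ∪ {ω | (ω x).2 = true})
      simp only [G, Set.mem_union, Set.mem_inter_iff, Set.mem_ofPred_eq]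
      have := h3.1 x
      cases h : (ω x).1 <;> cases h' : (ω x).2 <;> simp_all
    rw [d1, d2] at h1
    linarith
  have g2 : ∀ n : ℕ, ∑ x ∈ Finset.Icc (-(n:ℤ)) n, ν.real (G x) ≤ 1 := by
    intro n
    have h1 : ∀ n : ℕ, ∑ x ∈ Finset.Icc (-(n:ℤ)) n, ν.real (G x) = ρ n - ρ (-(n:ℤ) - 1) := by
      intro n
      induction n with
      | zero => simp [g1]
      | succ k ih =>
        have hI : Finset.Icc (-((k + 1 : ℕ):ℤ)) ((k + 1 : ℕ):ℤ) =
            insert (-((k + 1 : ℕ):ℤ)) (insert ((k + 1 : ℕ):ℤ) (Finset.Icc (-(k:ℤ)) k)) := by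
          ext x
          simp only [Finset.mem_Icc, Finset.mem_insert]
          push_cast
          omega
        rw [hI, Finset.sum_insert, Finset.sum_insert, ih, g1, g1]
        · push_cast
          have e1 : (k:ℤ) + 1 - 1 = k := by ring
          have e2 : -((k:ℤ) + 1) = -(k:ℤ) - 1 := by ring
          rw [e1, e2]
          ring
        · simp only [Finset.mem_Icc]; push_cast; omega
        · simp only [Finset.mem_insert, Finset.mem_Icc]; push_cast; omega
    rw [h1 n]
    have h2 : ρ n ≤ 1 := measureReal_le_one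
    have h3 : 0 ≤ ρ (-(n:ℤ) - 1) := measureReal_nonneg
    linarith
  have g3 : ∑' x : ℤ, ν (G x) ≤ 1 := by
    rw [ENNReal.tsum_eq_iSup_sum]
    refine iSup_le fun s => ?_
    obtain ⟨n, hn⟩ : ∃ n : ℕ, s ⊆ Finset.Icc (-(n:ℤ)) n := by
      refine ⟨s.sup Int.natAbs, fun x hx => ?_⟩
      have h := Finset.le_sup (f := Int.natAbs) hx
      rw [Finset.mem_Icc]
      omega
    calc ∑ x ∈ s, ν (G x) ≤ ∑ x ∈ Finset.Icc (-(n:ℤ)) n, ν (G x) :=
          Finset.sum_le_sum_of_subset hn
      _ = ENNReal.ofReal (∑ x ∈ Finset.Icc (-(n:ℤ)) n, ν.real (G x)) := by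
          rw [ENNReal.ofReal_sum_of_nonneg fun x _ => measureReal_nonneg]
          refine Finset.sum_congr rfl fun x _ => ?_
          rw [ofReal_measureReal]
      _ ≤ ENNReal.ofReal 1 := ENNReal.ofReal_le_ofReal (g2 n)
      _ = 1 := ENNReal.ofReal_one
  let D : Cfg2 → ℝ≥0∞ := fun ω => ∑' x : ℤ, (G x).indicator (fun _ => (1:ℝ≥0∞)) ω
  have Dint : ∫⁻ ω, D ω ∂ν ≤ 1 := by
    have h1 : ∫⁻ ω, D ω ∂ν = ∑' x : ℤ, ν (G x) := by
      show ∫⁻ ω, ∑' x : ℤ, (G x).indicator (fun _ => (1:ℝ≥0∞)) ω ∂ν = _
      rw [lintegral_tsum fun x => (measurable_const.indicator (Gm x)).aemeasurable]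
      congr 1
      ext x
      rw [lintegral_indicator (Gm x)]
      simp
    rw [h1]; exact g3
  have Dge : (fun _ => (1:ℝ≥0∞)) ≤ᵐ[ν] D := by
    filter_upwards [hord] with ω h1
    obtain ⟨x, h2, h3⟩ := h1.2
    have hmem : ω ∈ G x := ⟨h2, h3⟩
    have h4 : (G x).indicator (fun _ => (1:ℝ≥0∞)) ω = 1 := Set.indicator_of_mem hmem _
    rw [← h4]
    exact ENNReal.le_tsum x
  have Deq : (fun _ => (1:ℝ≥0∞)) =ᵐ[ν] D := by
    refine ae_eq_of_ae_le_of_lintegral_le Dge (by simp) ?_ ?_
    · exact (Measurable.ennreal_tsum fun x => measurable_const.indicator (Gm x)).aemeasurable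
    · simpa using Dint
  refine ⟨ν, hν, e1m, e2m, ?_⟩
  filter_upwards [hord, Deq] with ω h1 h2
  obtain ⟨x, h3, h4⟩ := h1.2
  refine ⟨x, h3, ?_⟩
  funext y
  by_cases hy : y = x
  · subst hy
    simp only [Function.update_self]
    exact h4
  · rw [Function.update_of_ne hy]
    show (ω y).2 = (ω y).1
    have h5 := h1.1 y
    cases h : (ω y).1 <;> cases h' : (ω y).2
    · rfl
    · simp_all
    · exfalso
      have m1 : ω ∈ G y := ⟨h, h'⟩
      have m2 : ω ∈ G x := ⟨h3, h4⟩
      have h6 : (2:ℝ≥0∞) ≤ D ω := by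
        calc (2:ℝ≥0∞) = ∑ z ∈ ({y, x} : Finset ℤ), (G z).indicator (fun _ => (1:ℝ≥0∞)) ω := by
              rw [Finset.sum_pair hy, Set.indicator_of_mem m1, Set.indicator_of_mem m2]
              norm_num
          _ ≤ D ω := ENNReal.sum_le_tsum _
      rw [← h2] at h6
      norm_num at h6
    · rfl

end Pool.Agent.K1H53.EX
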