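import Pool.Agent.K1H53.EX.Fin3
import Pool.Agent.K1H53.EX.NuOf
import Pool.Agent.K1H53.EX.Kernel
import Pool.Agent.K1H38.EX.Infl
import Pool.Agent.K1H61.EX.Lim
import Pool.Agent.K1H1.EX.Gen
import Pool.Agent.K1H45.EX.En
import Pool.Agent.K1H99.EX.Ces
import Pool.Agent.K1H65.EX.Abs
import Pool.Agent.K1H65.EX.Marg
import Pool.Agent.K1H20.EX.Spd
import Pool.Agent.K1H7.EX.Flux
import Pool.Agent.K1H89.EX.Inv
import Pool.Agent.K1H31.EX.Ker

/-! # Assembly: no blocking measures -/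

set_option autoImplicit false

open MeasureTheory Filter Topology

namespace Pool.Agent.K1H53.EX

theorem pSG : S_SG :=
  sg_of Pool.Agent.K1H38.EX.t_PFC Pool.Agent.K1H38.EX.infl Pool.Agent.K1H61.EX.t_LIM
    Pool.Agent.K1H1.EX.t_GEN

theorem pNU : S_NU :=
  nuof pSG Pool.Agent.K1H99.EX.t_CES Pool.Agent.K1H65.EX.t_ABS Pool.Agent.K1H65.EX.t_MARG
    Pool.Agent.K1H7.EX.t_FLUX
    (Pool.Agent.K1H89.EX.t_INV Pool.Agent.K1H65.EX.t_MARG Pool.Agent.K1H65.EX.t_ABS)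

theorem main : S_MAIN :=
  fin pSG (Pool.Agent.K1H45.EX.t_EN Pool.Agent.K1H38.EX.t_PFC) Pool.Agent.K1H65.EX.t_MARG
    (Pool.Agent.K1H20.EX.t_SPD pSG Pool.Agent.K1H65.EX.t_MARG) pNU

theorem ker : S_KER := Pool.Agent.K1H31.EX.t_KER

end Pool.Agent.K1H53.EX
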