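import Mathlib

/-!
# Exclusion processes with heavy left tails have no blocking measures: definitions and pieces

Configurations are `η : ℤ → Bool` (`true` = occupied). The coupled process lives on
`ℤ → Bool × Bool`. Both are systems with a local rule `a : S × S → S × S` applied at ordered pairs
`(u, v)` of sites with rate `p (v - u)`.
-/

set_option autoImplicit false

open MeasureTheory Filter Topology

namespace Pool.Agent.K1H53.EX

section Exp

variable {V : Type} [NormedAddCommGroup V] [NormedSpace ℝ V]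

/-- `exp (t L)` for a bounded operator. -/
noncomputable def ex (L : V →L[ℝ] V) (t : ℝ) : V →L[ℝ] V := NormedSpace.exp (t • L)

theorem ex_zero (L : V →L[ℝ] V) : ex L 0 = 1 := by simp [ex]

theorem ex_add [CompleteSpace V] (L : V →L[ℝ] V) (s t : ℝ) : ex L (s + t) = ex L s * ex L t := by
  unfold ex
  let _ : NormedAlgebra ℚ (V →L[ℝ] V) := NormedAlgebra.restrictScalars ℚ ℝ _
  rw [add_smul]
  exact NormedSpace.exp_add_of_commute (((Commute.refl L).smul_left s).smul_right t)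

theorem ex_deriv [CompleteSpace V] (L : V →L[ℝ] V) (t : ℝ) :
    HasDerivAt (fun t => ex L t) (ex L t * L) t :=
  hasDerivAt_exp_smul_const L t

theorem ex_deriv' [CompleteSpace V] (L : V →L[ℝ] V) (t : ℝ) :
    HasDerivAt (fun t => ex L t) (L * ex L t) t :=
  hasDerivAt_exp_smul_const' L t

theorem ex_apply_deriv [CompleteSpace V] (L : V →L[ℝ] V) (f : V) (t : ℝ) :
    HasDerivAt (fun t => ex L t f) (ex L t (L f)) t :=
  ((ex_deriv L t).clm_apply (hasDerivAt_const t f)).congr_deriv (by simp)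

theorem ex_apply_deriv' [CompleteSpace V] (L : V →L[ℝ] V) (f : V) (t : ℝ) :
    HasDerivAt (fun t => ex L t f) (L (ex L t f)) t :=
  ((ex_deriv' L t).clm_apply (hasDerivAt_const t f)).congr_deriv (by simp)

end Exp

section General

variable {S : Type} [Fintype S] [DecidableEq S] [TopologicalSpace S] [DiscreteTopology S]
  [MeasurableSpace S] [BorelSpace S]

/-- Apply the local rule `a` at the ordered pair of sites `(u, v)`. -/
def T {S : Type} (a : S × S → S × S) (u v : ℤ) (η : ℤ → S) : ℤ → S :=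
  if u = v then η
  else Function.update (Function.update η u (a (η u, η v)).1) v (a (η u, η v)).2

omit [Fintype S] [DecidableEq S] [MeasurableSpace S] [BorelSpace S] in
theorem continuous_T (a : S × S → S × S) (u v : ℤ) : Continuous (T a u v) := by
  unfold T
  by_cases h : u = v
  · simp only [h, if_true]; exact continuous_id
  · simp only [h, if_false]
    have h1 : Continuous fun η : ℤ → S => a (η u, η v) :=
      (continuous_of_discreteTopology (f := a)).comp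
        ((continuous_apply u).prodMk (continuous_apply v))
    exact (continuous_id.update u (continuous_fst.comp h1)).update v (continuous_snd.comp h1)

/-- The bundled continuous map. -/
def TC (a : S × S → S × S) (u v : ℤ) : C(ℤ → S, ℤ → S) := ⟨T a u v, continuous_T a u v⟩

/-- Composition with a continuous self-map, as a bounded operator on `C(ℤ → S, ℝ)`. -/
noncomputable def compL (h : C(ℤ → S, ℤ → S)) : C(ℤ → S, ℝ) →L[ℝ] C(ℤ → S, ℝ) :=
  ⟨(ContinuousMap.compRightAlgHom ℝ ℝ h).toLinearMap,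
    ContinuousMap.compRightAlgHom_continuous ℝ ℝ h⟩

/-- The generator restricted to a finite set `F` of ordered pairs (a bounded operator). -/
noncomputable def LF (a : S × S → S × S) (p : ℤ → ℝ) (F : Finset (ℤ × ℤ)) :
    C(ℤ → S, ℝ) →L[ℝ] C(ℤ → S, ℝ) :=
  ∑ q ∈ F, p (q.2 - q.1) • (compL (TC a q.1 q.2) - 1)

/-- The semigroup of the finite system, `exp (t L_F)`. -/
noncomputable def PF (a : S × S → S × S) (p : ℤ → ℝ) (F : Finset (ℤ × ℤ)) (t : ℝ) :
    C(ℤ → S, ℝ) →L[ℝ] C(ℤ → S, ℝ) :=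
  ex (LF a p F) t

/-- The generator, on functions of finitely many coordinates. -/
noncomputable def genL (a : S × S → S × S) (p : ℤ → ℝ) (f : (ℤ → S) → ℝ) (η : ℤ → S) : ℝ :=
  ∑' q : ℤ × ℤ, p (q.2 - q.1) * (f (T a q.1 q.2 η) - f η)

/-- Stationarity, in generator form: `∫ L f dμ = 0` for all functions of finitely many sites. -/
def Stat (a : S × S → S × S) (p : ℤ → ℝ) (μ : Measure (ℤ → S)) : Prop :=
  ∀ (f : (ℤ → S) → ℝ) (Λ : Finset ℤ), DependsOn f (Λ : Set ℤ) → ∫ η, genL a p f η ∂μ = 0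

/-- `P` is the Markov semigroup of the infinite system. -/
structure IsSG (a : S × S → S × S) (p : ℤ → ℝ)
    (P : ℝ → C(ℤ → S, ℝ) →L[ℝ] C(ℤ → S, ℝ)) : Prop where
  /-- limit of the finite systems along finite sets of pairs -/
  lim : ∀ t, 0 ≤ t → ∀ f, Tendsto (fun F : Finset (ℤ × ℤ) => PF a p F t f) atTop (𝓝 (P t f))
  /-- strong continuity -/
  cont : ∀ f, ContinuousOn (fun t => P t f) (Set.Ici 0)
  zero : ∀ f, P 0 f = f
  add : ∀ s t, 0 ≤ s → 0 ≤ t → ∀ f, P (s + t) f = P s (P t f)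
  /-- closed convex sets stable under all local maps are stable under the semigroup -/
  conv : ∀ K : Set C(ℤ → S, ℝ), IsClosed K → Convex ℝ K →
    (∀ f ∈ K, ∀ u v : ℤ, f.comp (TC a u v) ∈ K) → ∀ t, 0 ≤ t → ∀ f ∈ K, P t f ∈ K
  /-- the generator of a local function is a continuous function -/
  ex : ∀ (f : C(ℤ → S, ℝ)) (Λ : Finset ℤ), DependsOn (fun η => f η) (Λ : Set ℤ) →
    ∃ g : C(ℤ → S, ℝ), ∀ η, g η = genL a p (fun ζ => f ζ) η
  gen : ∀ (f g : C(ℤ → S, ℝ)) (Λ : Finset ℤ), DependsOn (fun η => f η) (Λ : Set ℤ) →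
    (∀ η, g η = genL a p (fun ζ => f ζ) η) →
    ∀ t, 0 ≤ t → ∀ η, P t f η - f η = ∫ s in (0:ℝ)..t, P s g η
  inv : ∀ μ : Measure (ℤ → S), IsProbabilityMeasure μ → Stat a p μ →
    ∀ t, 0 ≤ t → ∀ f : C(ℤ → S, ℝ), ∫ η, P t f η ∂μ = ∫ η, f η ∂μ

/-- **Piece SG.** Existence of the semigroup. -/
def S_SG : Prop :=
  ∀ (S : Type) [Fintype S] [DecidableEq S] [TopologicalSpace S] [DiscreteTopology S]
    [MeasurableSpace S] [BorelSpace S] (a : S × S → S × S) (p : ℤ → ℝ),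
    (∀ m, 0 ≤ p m) → Summable p → ∃ P, IsSG a p P

/-- Invariance under a semigroup. -/
def Inv (P : ℝ → C(ℤ → S, ℝ) →L[ℝ] C(ℤ → S, ℝ)) (μ : Measure (ℤ → S)) : Prop :=
  ∀ t, 0 ≤ t → ∀ f : C(ℤ → S, ℝ), ∫ η, P t f η ∂μ = ∫ η, f η ∂μ

/-- **Piece EN.** The energy inequality. -/
def S_EN : Prop :=
  ∀ (S : Type) [Fintype S] [DecidableEq S] [TopologicalSpace S] [DiscreteTopology S]
    [MeasurableSpace S] [BorelSpace S] (a : S × S → S × S) (p : ℤ → ℝ)
    (P : ℝ → C(ℤ → S, ℝ) →L[ℝ] C(ℤ → S, ℝ)) (μ : Measure (ℤ → S)),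
    (∀ m, 0 ≤ p m) → IsSG a p P → IsProbabilityMeasure μ → Inv P μ →
    ∀ (f : C(ℤ → S, ℝ)) (F : Finset (ℤ × ℤ)) (t₀ : ℝ), 0 ≤ t₀ →
      ∫ t in (0:ℝ)..t₀, ∑ q ∈ F, p (q.2 - q.1) *
          ∫ η, (P t f (T a q.1 q.2 η) - P t f η) ^ 2 ∂μ ≤ ∫ η, (f η) ^ 2 ∂μ

/-- **Piece CES.** Limits of time averages. -/
def S_CES : Prop :=
  ∀ (S : Type) [Fintype S] [DecidableEq S] [TopologicalSpace S] [DiscreteTopology S]
    [MeasurableSpace S] [BorelSpace S] (a : S × S → S × S) (p : ℤ → ℝ)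
    (P : ℝ → C(ℤ → S, ℝ) →L[ℝ] C(ℤ → S, ℝ)) (π : Measure (ℤ → S)),
    IsSG a p P → IsProbabilityMeasure π →
    ∃ ν : Measure (ℤ → S), IsProbabilityMeasure ν ∧ Inv P ν ∧
      ∀ (f : C(ℤ → S, ℝ)) (c : ℝ), (∀ t, 0 ≤ t → ∫ η, P t f η ∂π ≤ c) → ∫ η, f η ∂ν ≤ c

/-- **Piece ABS.** Restriction of an invariant measure to a closed absorbing set. -/
def S_ABS : Prop :=
  ∀ (S : Type) [Fintype S] [DecidableEq S] [TopologicalSpace S] [DiscreteTopology S]
    [MeasurableSpace S] [BorelSpace S] (a : S × S → S × S) (p : ℤ → ℝ)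
    (P : ℝ → C(ℤ → S, ℝ) →L[ℝ] C(ℤ → S, ℝ)) (ν : Measure (ℤ → S)) (B : Set (ℤ → S)),
    IsSG a p P → IsProbabilityMeasure ν → Inv P ν → IsClosed B →
    (∀ ω ∈ B, ∀ u v : ℤ, T a u v ω ∈ B) →
    ∀ t, 0 ≤ t → ∀ f : C(ℤ → S, ℝ), ∫ η in B, P t f η ∂ν = ∫ η in B, f η ∂ν

end General

/-! ## The exclusion process -/

/-- Configurations. -/
abbrev Cfg := ℤ → Bool

/-- Pairs of configurations, as one configuration with values in `Bool × Bool`. -/
abbrev Cfg2 := ℤ → Bool × Bool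

/-- The exclusion rule: a particle at the first site jumps to the second one if it is vacant. -/
def a1 (s : Bool × Bool) : Bool × Bool := if s.1 && !s.2 then (false, true) else s

/-- The coupled rule: the same attempted jump in both configurations. -/
def a2 (s : (Bool × Bool) × (Bool × Bool)) : (Bool × Bool) × (Bool × Bool) :=
  (((a1 (s.1.1, s.2.1)).1, (a1 (s.1.2, s.2.2)).1), ((a1 (s.1.1, s.2.1)).2, (a1 (s.1.2, s.2.2)).2))

/-- First configuration of a pair. -/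
def π1 : C(Cfg2, Cfg) := ⟨fun ω x => (ω x).1, by fun_prop⟩

/-- Second configuration of a pair. -/
def π2 : C(Cfg2, Cfg) := ⟨fun ω x => (ω x).2, by fun_prop⟩

/-- Shift to the right by one: `(τ η) x = η (x - 1)`. -/
def sh : C(Cfg, Cfg) := ⟨fun η x => η (x - 1), by fun_prop⟩

/-- Shift to the left by one. -/
def shi : C(Cfg, Cfg) := ⟨fun η x => η (x + 1), by fun_prop⟩

/-- The pair `(η, τ η)`. -/
def diag : C(Cfg, Cfg2) := ⟨fun η x => (η x, η (x - 1)), by fun_prop⟩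

/-- **Piece MARG.** Marginals of the coupled semigroup, and translation invariance. -/
def S_MARG : Prop :=
  ∀ (p : ℤ → ℝ) (P : ℝ → C(Cfg, ℝ) →L[ℝ] C(Cfg, ℝ)) (Q : ℝ → C(Cfg2, ℝ) →L[ℝ] C(Cfg2, ℝ)),
    IsSG a1 p P → IsSG a2 p Q → ∀ t, 0 ≤ t → ∀ f : C(Cfg, ℝ),
      Q t (f.comp π1) = (P t f).comp π1 ∧ Q t (f.comp π2) = (P t f).comp π2 ∧
      P t (f.comp sh) = (P t f).comp sh ∧ P t (f.comp shi) = (P t f).comp shi

/-- Number of particles in `[-A, A]`. -/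
noncomputable def cnt (A : ℕ) : C(Cfg, ℝ) :=
  ⟨fun η => ∑ x ∈ Finset.Icc (-(A : ℤ)) A, if η x = true then (1 : ℝ) else 0, by
    refine continuous_finsetSum _ fun x _ => ?_
    exact (continuous_of_discreteTopology (f := fun b : Bool => if b = true then (1 : ℝ) else 0)).comp
      (continuous_apply x)⟩

/-- **Piece SPD.** Monotonicity, unit influence and finite speed. -/
def S_SPD : Prop :=
  ∀ (p : ℤ → ℝ) (P : ℝ → C(Cfg, ℝ) →L[ℝ] C(Cfg, ℝ)), (∀ m, 0 ≤ p m) → Summable p →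
    Summable (fun m : ℤ => |(m : ℝ)| * p m) → IsSG a1 p P →
    ∀ (A : ℕ) (t : ℝ), 0 ≤ t → ∀ (η : Cfg) (x : ℤ), η x = true →
      0 ≤ P t (cnt A) η - P t (cnt A) (Function.update η x false) ∧
      P t (cnt A) η - P t (cnt A) (Function.update η x false) ≤ 1 ∧
      (x < -(A : ℤ) → P t (cnt A) η - P t (cnt A) (Function.update η x false) ≤
        2 * (∑' m : ℤ, |(m : ℝ)| * p m) * t / (-(x : ℝ) - A))

/-- **Piece FLUX.** In an invariant coupling of two measures which agree at both ends there are no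
discrepancies of opposite sign. -/
def S_FLUX : Prop :=
  ∀ (p : ℤ → ℝ) (Q : ℝ → C(Cfg2, ℝ) →L[ℝ] C(Cfg2, ℝ)) (ν : Measure Cfg2),
    (∀ m, 0 ≤ p m) → Summable p → Summable (fun m : ℤ => |(m : ℝ)| * p m) →
    (∀ m : ℤ, m < 0 → 0 < p m) → IsSG a2 p Q → IsProbabilityMeasure ν → Inv Q ν →
    Tendsto (fun x : ℤ => ν.real {ω | (ω x).1 ≠ (ω x).2}) atBot (𝓝 0) →
    Tendsto (fun x : ℤ => ν.real {ω | (ω x).1 ≠ (ω x).2}) atTop (𝓝 0) →
    ∀ᵐ ω ∂ν, (∀ x, (ω x).2 = true → (ω x).1 = true) ∨ (∀ x, (ω x).1 = true → (ω x).2 = true)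

/-- **Piece INV.** Transfer of the invariants between the two marginals of the coupling. -/
def S_INV : Prop :=
  ∀ (p : ℤ → ℝ) (P : ℝ → C(Cfg, ℝ) →L[ℝ] C(Cfg, ℝ)) (Q : ℝ → C(Cfg2, ℝ) →L[ℝ] C(Cfg2, ℝ))
    (μ : Measure Cfg) (ν : Measure Cfg2) (B : Set Cfg2),
    (∀ m, 0 ≤ p m) → IsSG a1 p P → IsSG a2 p Q → IsProbabilityMeasure μ → Inv P μ →
    IsProbabilityMeasure ν → Inv Q ν →
    (∀ (f : C(Cfg2, ℝ)) (c : ℝ), (∀ t, 0 ≤ t → ∫ η, Q t f (diag η) ∂μ ≤ c) →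
      ∫ ω, f ω ∂ν ≤ c) →
    IsClosed B → (∀ ω ∈ B, ∀ u v : ℤ, T a2 u v ω ∈ B) →
    ∀ f : C(Cfg, ℝ), ∫ ω in B, f (π1 ω) ∂ν = ∫ ω in B, f (shi (π2 ω)) ∂ν

/-- Left and right limits of the density. -/
def Blocking (μ : Measure Cfg) : Prop :=
  Tendsto (fun x : ℤ => μ.real {η | η x = true}) atBot (𝓝 0) ∧
    Tendsto (fun x : ℤ => μ.real {η | η x = true}) atTop (𝓝 1)

/-- **Piece NU.** A coupling of `μ` and its shift which differ at exactly one site. -/
def S_NU : Prop :=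
  ∀ (p : ℤ → ℝ) (μ : Measure Cfg), (∀ m, 0 ≤ p m) → Summable p →
    Summable (fun m : ℤ => |(m : ℝ)| * p m) → (∀ m : ℤ, m < 0 → 0 < p m) →
    IsProbabilityMeasure μ → Stat a1 p μ → Blocking μ →
    ∃ ν : Measure Cfg2, IsProbabilityMeasure ν ∧ ν.map π1 = μ ∧ ν.map π2 = μ.map sh ∧
      ∀ᵐ ω ∂ν, ∃ x : ℤ, (π1 ω) x = true ∧ π2 ω = Function.update (π1 ω) x false

/-- **Main theorem.** -/
def S_MAIN : Prop :=
  ∀ (p : ℤ → ℝ) (c α : ℝ), (∀ m, 0 ≤ p m) → Summable p →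
    Summable (fun m : ℤ => |(m : ℝ)| * p m) → 0 < c → α ^ 2 < 3 * α - 1 →
    (∀ m : ℕ, 1 ≤ m → c * (m : ℝ) ^ (-α) ≤ p (-(m : ℤ))) →
    ¬ ∃ μ : Measure Cfg, IsProbabilityMeasure μ ∧ Stat a1 p μ ∧ Blocking μ

/-- **Piece FIN.** The final computation. -/
def S_FIN : Prop := S_SG → S_EN → S_SPD → S_NU → S_MAIN

/-- **Piece NUof.** -/
def S_NUof : Prop := S_SG → S_CES → S_ABS → S_MARG → S_FLUX → S_INV → S_NU

end Pool.Agent.K1H53.EX
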