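import Pool.Agent.K1H53.EX.Plan

/-! # Pieces for the construction of the semigroup -/

set_option autoImplicit false

open MeasureTheory Filter Topology

namespace Pool.Agent.K1H53.EX

/-- **Piece CVX.** Closed convex sets and exponentials. -/
def S_CVX : Prop :=
  ∀ (V : Type) [NormedAddCommGroup V] [NormedSpace ℝ V] [CompleteSpace V] (M : V →L[ℝ] V)
    (K : Set V), IsClosed K → Convex ℝ K → (∀ f ∈ K, M f ∈ K) →
    ∀ s : ℝ, 0 ≤ s → ∀ f ∈ K, ex (M - 1) s f ∈ K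

/-- **Piece PFC.** The same for the finite systems. -/
def S_PFC : Prop :=
  ∀ (S : Type) [Fintype S] [DecidableEq S] [TopologicalSpace S] [DiscreteTopology S]
    (a : S × S → S × S) (p : ℤ → ℝ), (∀ m, 0 ≤ p m) → ∀ (F : Finset (ℤ × ℤ)) (t : ℝ), 0 ≤ t →
    (∀ K : Set C(ℤ → S, ℝ), IsClosed K → Convex ℝ K →
      (∀ f ∈ K, ∀ q ∈ F, f.comp (TC a q.1 q.2) ∈ K) → ∀ f ∈ K, PF a p F t f ∈ K) ∧
    (∀ f : C(ℤ → S, ℝ), ‖PF a p F t f‖ ≤ ‖f‖) ∧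
    (∀ f : C(ℤ → S, ℝ), (∀ η, 0 ≤ f η) → ∀ η, 0 ≤ PF a p F t f η) ∧
    (∀ c : ℝ, PF a p F t (ContinuousMap.const _ c) = ContinuousMap.const _ c)

/-- **Piece INFL.** Influences, uniformly in the finite set of pairs. -/
def S_INFL : Prop :=
  ∀ (S : Type) [Fintype S] [DecidableEq S] [TopologicalSpace S] [DiscreteTopology S]
    (a : S × S → S × S) (p : ℤ → ℝ), (∀ m, 0 ≤ p m) → Summable p →
    ∀ (f : C(ℤ → S, ℝ)) (Λ : Finset ℤ), DependsOn (fun η => f η) (Λ : Set ℤ) →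
    ∀ t₀ : ℝ, 0 ≤ t₀ → ∃ B : ℤ → ℝ, (∀ x, 0 ≤ B x) ∧ Summable B ∧
      ∀ (F : Finset (ℤ × ℤ)) (t : ℝ), 0 ≤ t → t ≤ t₀ → ∀ (x : ℤ) (η ζ : ℤ → S),
        (∀ y, y ≠ x → η y = ζ y) → |PF a p F t f η - PF a p F t f ζ| ≤ B x

/-- The first half of the properties of the semigroup. -/
structure IsSG0 {S : Type} [Fintype S] [DecidableEq S] [TopologicalSpace S] [DiscreteTopology S]
    (a : S × S → S × S) (p : ℤ → ℝ)
    (P : ℝ → C(ℤ → S, ℝ) →L[ℝ] C(ℤ → S, ℝ)) : Prop where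
  lim : ∀ t, 0 ≤ t → ∀ f, Tendsto (fun F : Finset (ℤ × ℤ) => PF a p F t f) atTop (𝓝 (P t f))
  cont : ∀ f, ContinuousOn (fun t => P t f) (Set.Ici 0)
  zero : ∀ f, P 0 f = f
  add : ∀ s t, 0 ≤ s → 0 ≤ t → ∀ f, P (s + t) f = P s (P t f)
  conv : ∀ K : Set C(ℤ → S, ℝ), IsClosed K → Convex ℝ K →
    (∀ f ∈ K, ∀ u v : ℤ, f.comp (TC a u v) ∈ K) → ∀ t, 0 ≤ t → ∀ f ∈ K, P t f ∈ K

/-- **Piece LIM.** Existence of the limit semigroup. -/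
def S_LIM : Prop := S_PFC → S_INFL →
  ∀ (S : Type) [Fintype S] [DecidableEq S] [TopologicalSpace S] [DiscreteTopology S]
    (a : S × S → S × S) (p : ℤ → ℝ), (∀ m, 0 ≤ p m) → Summable p → ∃ P, IsSG0 a p P

/-- **Piece GEN.** Its generator, and invariance from the generator condition. -/
def S_GEN : Prop := S_PFC → S_INFL →
  ∀ (S : Type) [Fintype S] [DecidableEq S] [TopologicalSpace S] [DiscreteTopology S]
    [MeasurableSpace S] [BorelSpace S] (a : S × S → S × S) (p : ℤ → ℝ)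
    (P : ℝ → C(ℤ → S, ℝ) →L[ℝ] C(ℤ → S, ℝ)), (∀ m, 0 ≤ p m) → Summable p → IsSG0 a p P →
    (∀ (f : C(ℤ → S, ℝ)) (Λ : Finset ℤ), DependsOn (fun η => f η) (Λ : Set ℤ) →
      ∃ g : C(ℤ → S, ℝ), ∀ η, g η = genL a p (fun ζ => f ζ) η) ∧
    (∀ (f g : C(ℤ → S, ℝ)) (Λ : Finset ℤ), DependsOn (fun η => f η) (Λ : Set ℤ) →
      (∀ η, g η = genL a p (fun ζ => f ζ) η) →
      ∀ t, 0 ≤ t → ∀ η, P t f η - f η = ∫ s in (0:ℝ)..t, P s g η) ∧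
    (∀ μ : Measure (ℤ → S), IsProbabilityMeasure μ → Stat a p μ →
      ∀ t, 0 ≤ t → ∀ f : C(ℤ → S, ℝ), ∫ η, P t f η ∂μ = ∫ η, f η ∂μ)

theorem sg_of (h1 : S_PFC) (h2 : S_INFL) (h3 : S_LIM) (h4 : S_GEN) : S_SG := by
  intro S _ _ _ _ _ _ a p hp hs
  obtain ⟨P, hP⟩ := h3 h1 h2 S a p hp hs
  obtain ⟨g1, g2, g3⟩ := h4 h1 h2 S a p P hp hs hP
  exact ⟨P, ⟨hP.lim, hP.cont, hP.zero, hP.add, hP.conv, g1, g2, g3⟩⟩

end Pool.Agent.K1H53.EX
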